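import Pool.Agent.W967.RC.Num

set_option autoImplicit false
set_option linter.unusedSectionVars false

/-! The asymptotic form. -/

namespace Pool.Agent.W967.RC

open Finset Filter

theorem asym (f r : ℕ → ℕ) (g : ℕ → ℝ)
    (h : Tendsto (fun k : ℕ => (r k : ℝ) * g k / k) atTop (nhds 0)) :
    ∀ᶠ k in atTop, ∀ᶠ n in atTop, ∃ G : SimpleGraph (Fin n), G.CliqueFree k ∧
      ∃ A : Finset (Fin k), A.card = k / 2 ∧ ∀ L : ℕ, (L : ℝ) ≤ f k * (n : ℝ) ^ g k →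
        (∀ P : ℕ → (Fin k → Fin n) → Prop, ¬ Seq G A (r k) L P) ∧
        (∀ P : (Fin k → Fin n) → Prop, Der G A (r k) ∅ P L → ∃ c, P c) := by
  have h1 : ∀ᶠ k : ℕ in atTop, (r k : ℝ) * g k / k < 1 / 2000 :=
    h.eventually_lt_const (by norm_num)
  filter_upwards [h1, eventually_ge_atTop 16] with k hk hk16
  set X : ℕ := 2 * f k + 1 with hX
  filter_upwards [eventually_ge_atTop (2 ^ k ^ 4), eventually_gt_atTop (X ^ (1000 * r k))]
    with n hn hn2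
  obtain ⟨G, hG, A, hA, -, hseq, hder⟩ := main hk16 hn
  refine ⟨G, hG, A, hA, fun L hL => ?_⟩
  have hkpos : (0 : ℝ) < k := by
    have : 0 < k := by omega
    exact_mod_cast this
  have hX1 : 1 ≤ X := by omega
  have hn1 : 1 ≤ n := by
    have : 1 ≤ X ^ (1000 * r k) := Nat.one_le_pow _ _ hX1
    omega
  have hn1' : (1 : ℝ) ≤ n := by exact_mod_cast hn1
  set γ := max (g k) 0 with hγ
  have hγ0 : 0 ≤ γ := le_max_right _ _
  have hrg : 1000 * (r k : ℝ) * γ ≤ k / 2 := by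
    rw [div_lt_iff₀ hkpos] at hk
    rcases le_total (g k) 0 with h2 | h2
    · rw [hγ, max_eq_right h2, mul_zero]
      positivity
    · rw [hγ, max_eq_left h2]
      linarith
  have hbase : (2 * (L : ℝ)) ≤ X * (n : ℝ) ^ γ := by
    have h2 : (n : ℝ) ^ g k ≤ (n : ℝ) ^ γ := Real.rpow_le_rpow_of_exponent_le hn1' (le_max_left _ _)
    have h3 : (0 : ℝ) ≤ (n : ℝ) ^ γ := Real.rpow_nonneg (by positivity) _
    calc (2 * (L : ℝ)) ≤ 2 * (f k * (n : ℝ) ^ g k) := by linarith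
      _ ≤ 2 * (f k * (n : ℝ) ^ γ) := by
          have : (0 : ℝ) ≤ f k := by positivity
          nlinarith
      _ ≤ X * (n : ℝ) ^ γ := by
          rw [hX]
          push_cast
          nlinarith
  have hXn : (1 : ℝ) ≤ X * (n : ℝ) ^ γ := by
    have h2 : (1 : ℝ) ≤ (n : ℝ) ^ γ := Real.one_le_rpow hn1' hγ0
    have h3 : (1 : ℝ) ≤ X := by exact_mod_cast hX1
    nlinarith
  have key : ∀ m : ℕ, m ≤ 1000 → ¬ n ^ k ≤ (2 * L) ^ (m * r k) := by
    intro m hm hcon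
    have h2 : ((n : ℝ)) ^ k ≤ (2 * (L : ℝ)) ^ (m * r k) := by exact_mod_cast hcon
    have h3 : (2 * (L : ℝ)) ^ (m * r k) ≤ (X * (n : ℝ) ^ γ) ^ (m * r k) :=
      pow_le_pow_left₀ (by positivity) hbase _
    have h4 : (X * (n : ℝ) ^ γ) ^ (m * r k) ≤ (X * (n : ℝ) ^ γ) ^ (1000 * r k) :=
      pow_le_pow_right₀ hXn (Nat.mul_le_mul_right _ hm)
    have h5 : (X * (n : ℝ) ^ γ) ^ (1000 * r k) =
        (X : ℝ) ^ (1000 * r k) * (n : ℝ) ^ (1000 * (r k : ℝ) * γ) := by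
      rw [mul_pow, ← Real.rpow_natCast ((n : ℝ) ^ γ), ← Real.rpow_mul (by positivity)]
      congr 2
      push_cast
      ring
    have h6 : (n : ℝ) ^ (1000 * (r k : ℝ) * γ) ≤ (n : ℝ) ^ ((k : ℝ) / 2) :=
      Real.rpow_le_rpow_of_exponent_le hn1' hrg
    have h7 : (X : ℝ) ^ (1000 * r k) < n := by exact_mod_cast hn2
    have h8 : (n : ℝ) ≤ (n : ℝ) ^ ((k : ℝ) / 2) := by
      have h9 : (n : ℝ) ^ (1 : ℝ) ≤ (n : ℝ) ^ ((k : ℝ) / 2) := by
        refine Real.rpow_le_rpow_of_exponent_le hn1' ?_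
        have : (16 : ℝ) ≤ k := by exact_mod_cast hk16
        linarith
      rwa [Real.rpow_one] at h9
    have h9 : (n : ℝ) ^ k = (n : ℝ) ^ ((k : ℝ) / 2) * (n : ℝ) ^ ((k : ℝ) / 2) := by
      rw [← Real.rpow_add (by linarith), ← Real.rpow_natCast]
      congr 1
      ring
    have h10 : (0 : ℝ) < (n : ℝ) ^ ((k : ℝ) / 2) := Real.rpow_pos_of_pos (by linarith) _
    have h11 : (n : ℝ) ^ k < (n : ℝ) ^ k := by
      calc (n : ℝ) ^ k ≤ (X : ℝ) ^ (1000 * r k) * (n : ℝ) ^ (1000 * (r k : ℝ) * γ) :=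
            (h2.trans (h3.trans h4)).trans_eq h5
        _ ≤ (X : ℝ) ^ (1000 * r k) * (n : ℝ) ^ ((k : ℝ) / 2) :=
            mul_le_mul_of_nonneg_left h6 (by positivity)
        _ < (n : ℝ) ^ ((k : ℝ) / 2) * (n : ℝ) ^ ((k : ℝ) / 2) :=
            mul_lt_mul_of_pos_right (h7.trans_le h8) h10
        _ = (n : ℝ) ^ k := h9.symm
    exact lt_irrefl _ h11
  refine ⟨fun P hP => key 500 (by norm_num) (hseq _ _ _ hP), fun P hP => ?_⟩
  by_contra hcon
  push Not at hcon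
  exact key 1000 le_rfl (hder _ _ _ hP hcon)

end Pool.Agent.W967.RC
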