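import Mathlib

set_option autoImplicit false
set_option linter.unusedSectionVars false

/-! Fourier analysis of the inner product on `E → (Fin b → ZMod 2)`. -/

namespace Pool.Agent.W967.RC

open Finset

variable {E : Type} [Fintype E] [DecidableEq E] {b : ℕ}

/-- vectors of blocks -/
abbrev Vec (E : Type) (b : ℕ) : Type := E → Fin b → ZMod 2

/-- the inner product gadget at the coordinate `e` -/
def ip (x y : Vec E b) (e : E) : ZMod 2 := ∑ i, x e i * y e i

theorem ip_comm (x y : Vec E b) : ip x y = ip y x := by
  funext e
  simp only [ip, mul_comm]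

/-- sign -/
def sg (z : ZMod 2) : ℤ := if z = 0 then 1 else -1

theorem sg_add (u v : ZMod 2) : sg (u + v) = sg u * sg v := by
  revert u v; decide

theorem sg_zero : sg 0 = 1 := rfl

theorem sg_sum {ι : Type} (s : Finset ι) (f : ι → ZMod 2) :
    sg (∑ i ∈ s, f i) = ∏ i ∈ s, sg (f i) := by
  classical
  induction s using Finset.induction_on with
  | empty => simp [sg]
  | insert a s ha ih => rw [sum_insert ha, prod_insert ha, sg_add, ih]

theorem sg_sq (z : ZMod 2) : sg z * sg z = 1 := by revert z; decide

/-- character -/
def chi (x y : Vec E b) : ℤ := sg (∑ e, ip x y e)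

theorem chi_comm (x y : Vec E b) : chi x y = chi y x := by
  rw [chi, ip_comm, ← chi]

theorem ip_add (x y y' : Vec E b) (e : E) : ip x (y + y') e = ip x y e + ip x y' e := by
  simp [ip, mul_add, sum_add_distrib]

theorem chi_add (x y y' : Vec E b) : chi x (y + y') = chi x y * chi x y' := by
  simp only [chi, ← sg_add, ← sum_add_distrib, ip_add]

/-- the part of a vector on `S` -/
def mask (S : Finset E) (x : Vec E b) : Vec E b := fun e => if e ∈ S then x e else 0

theorem ip_mask (S : Finset E) (x y : Vec E b) (e : E) :
    ip (mask S x) y e = if e ∈ S then ip x y e else 0 := by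
  unfold ip mask
  split_ifs <;> simp

theorem chi_mask (S : Finset E) (x y : Vec E b) : chi (mask S x) y = sg (∑ e ∈ S, ip x y e) := by
  simp only [chi, ip_mask, sum_ite_mem, univ_inter]

/-- vectors supported on `S` -/
def supp (S : Finset E) : Finset (Vec E b) := univ.filter fun x => ∀ e, e ∉ S → x e = 0

theorem mask_mem (S : Finset E) (x : Vec E b) : mask S x ∈ supp S := by
  simp only [supp, mem_filter, mem_univ, true_and]
  intro e he
  simp [mask, he]

theorem card_supp (S : Finset E) : (supp S : Finset (Vec E b)).card = (2 ^ b) ^ S.card := by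
  classical
  have h : (supp S : Finset (Vec E b)) =
      Fintype.piFinset (fun e => if e ∈ S then (univ : Finset (Fin b → ZMod 2)) else {0}) := by
    ext x
    simp only [supp, mem_filter, mem_univ, true_and, Fintype.mem_piFinset]
    constructor
    · intro h e
      split_ifs with he
      · exact mem_univ _
      · simpa using h e he
    · intro h e he
      have := h e
      rw [if_neg he] at this
      simpa using this
  rw [h, Fintype.card_piFinset]
  have h2 : ∀ e, (if e ∈ S then (univ : Finset (Fin b → ZMod 2)) else {0}).card =
      if e ∈ S then 2 ^ b else 1 := by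
    intro e
    split_ifs
    · simp
    · simp
  simp only [h2, prod_ite_mem, univ_inter, prod_const]

/-- agreement on `S` -/
def Eqon (S : Finset E) (x y : Vec E b) : Prop := ∀ e ∈ S, x e = y e

instance (S : Finset E) (x y : Vec E b) : Decidable (Eqon S x y) := by
  unfold Eqon; infer_instance

theorem char_sum (S : Finset E) (y y' : Vec E b) :
    ∑ x ∈ supp S, chi x y * chi x y' = if Eqon S y y' then ((2 : ℤ) ^ b) ^ S.card else 0 := by
  classical
  split_ifs with h
  · have : ∀ x ∈ (supp S : Finset (Vec E b)), chi x y * chi x y' = 1 := by
      intro x hx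
      have h1 : chi x y = chi x y' := by
        unfold chi
        congr 1
        refine sum_congr rfl fun e _ => ?_
        unfold ip
        by_cases he : e ∈ S
        · rw [h e he]
        · simp only [supp, mem_filter, mem_univ, true_and] at hx
          simp [hx e he]
      rw [h1]
      exact sg_sq _
    rw [sum_congr rfl this, sum_const, card_supp]
    simp
  · unfold Eqon at h
    push Not at h
    obtain ⟨e, he, hne⟩ := h
    have : ∃ i, y e i ≠ y' e i := by
      by_contra hcon
      push Not at hcon
      exact hne (funext hcon)
    obtain ⟨i, hi⟩ := this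
    -- shift by the unit vector
    let u : Vec E b := Pi.single e (Pi.single i 1)
    have hu : ∀ w : Vec E b, chi u w = sg (w e i) := by
      intro w
      have h1 : ∀ e', ip u w e' = if e' = e then w e i else 0 := by
        intro e'
        unfold ip
        by_cases h : e' = e
        · subst h
          simp only [u, Pi.single_eq_same, if_true]
          rw [sum_eq_single i]
          · simp
          · intro j _ hj
            rw [Pi.single_eq_of_ne hj, zero_mul]
          · simp
        · simp [u, h]
      unfold chi
      simp [h1]
    have hneg : chi u y * chi u y' = -1 := by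
      rw [hu, hu]
      revert hi
      generalize y e i = p
      generalize y' e i = q
      revert p q
      decide
    have hsh : ∑ x ∈ supp S, chi x y * chi x y' = ∑ x ∈ supp S, chi (x + u) y * chi (x + u) y' := by
      refine (sum_nbij' (fun x => x + u) (fun x => x + u) ?_ ?_ ?_ ?_ ?_).symm
      · intro x hx
        simp only [supp, mem_filter, mem_univ, true_and] at hx ⊢
        intro e' he'
        have hee : e' ≠ e := fun h => he' (h ▸ he)
        simp [hx e' he', u, hee]
      · intro x hx
        simp only [supp, mem_filter, mem_univ, true_and] at hx ⊢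
        intro e' he'
        have hee : e' ≠ e := fun h => he' (h ▸ he)
        simp [hx e' he', u, hee]
      · intro x _
        rw [add_assoc]
        have : u + u = 0 := by
          funext a j
          exact CharTwo.add_self_eq_zero _
        rw [this, add_zero]
      · intro x _
        rw [add_assoc]
        have : u + u = 0 := by
          funext a j
          exact CharTwo.add_self_eq_zero _
        rw [this, add_zero]
      · intro x _
        rfl
    have hmul : ∀ x : Vec E b, chi (x + u) y * chi (x + u) y' = -(chi x y * chi x y') := by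
      intro x
      rw [chi_comm (x + u), chi_comm (x + u), chi_add, chi_add, chi_comm y x, chi_comm y' x,
        chi_comm y u, chi_comm y' u]
      calc chi x y * chi u y * (chi x y' * chi u y') = (chi x y * chi x y') * (chi u y * chi u y') := by
            ring
        _ = _ := by rw [hneg]; ring
    rw [sum_congr rfl (fun x _ => hmul x), sum_neg_distrib] at hsh
    omega

/-- Fourier coefficient -/
def bias (B : Finset (Vec E b)) (x : Vec E b) : ℤ := ∑ y ∈ B, chi x y

theorem parseval (B : Finset (Vec E b)) (S : Finset E) :
    ∑ x ∈ supp S, bias B x ^ 2 =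
      ((2 : ℤ) ^ b) ^ S.card * ∑ y ∈ B, ((B.filter fun y' => Eqon S y y').card : ℤ) := by
  classical
  have h1 : ∀ x : Vec E b, bias B x ^ 2 = ∑ y ∈ B, ∑ y' ∈ B, chi x y * chi x y' := by
    intro x
    rw [bias, sq, sum_mul_sum]
  simp only [h1]
  rw [sum_comm]
  rw [mul_sum]
  refine sum_congr rfl fun y _ => ?_
  rw [sum_comm]
  simp only [char_sum]
  rw [← sum_filter, sum_const, nsmul_eq_mul, mul_comm]

theorem bias_le (B : Finset (Vec E b)) (x : Vec E b) : |bias B x| ≤ B.card := by
  unfold bias
  refine (abs_sum_le_sum_abs _ _).trans ?_
  have : ∀ y ∈ B, |chi x y| ≤ 1 := by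
    intro y _
    unfold chi sg
    split_ifs <;> simp
  refine (sum_le_sum this).trans ?_
  simp

/-- counting with prescribed values of the gadgets -/
theorem count_eq (B : Finset (Vec E b)) (x : Vec E b) (T : Finset E) (β : E → ZMod 2) :
    (2 : ℤ) ^ T.card * ((B.filter fun y => ∀ e ∈ T, ip x y e = β e).card : ℤ) =
      ∑ S ∈ T.powerset, sg (∑ e ∈ S, β e) * bias B (mask S x) := by
  classical
  have h1 : ∀ y : Vec E b, (if (∀ e ∈ T, ip x y e = β e) then (2 : ℤ) ^ T.card else 0) =
      ∑ S ∈ T.powerset, sg (∑ e ∈ S, β e) * chi (mask S x) y := by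
    intro y
    have h2 : ∏ e ∈ T, (1 + sg (β e) * sg (ip x y e)) =
        ∑ S ∈ T.powerset, ∏ e ∈ S, (sg (β e) * sg (ip x y e)) := prod_one_add T
    have h3 : ∀ S ∈ T.powerset, ∏ e ∈ S, (sg (β e) * sg (ip x y e)) =
        sg (∑ e ∈ S, β e) * chi (mask S x) y := by
      intro S _
      rw [chi_mask, sg_sum, sg_sum, prod_mul_distrib]
    rw [sum_congr rfl h3] at h2
    rw [← h2]
    split_ifs with h
    · have : ∀ e ∈ T, (1 + sg (β e) * sg (ip x y e)) = 2 := by
        intro e he
        rw [h e he, sg_sq]
        norm_num
      rw [prod_congr rfl this, prod_const]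
    · push Not at h
      obtain ⟨e, he, hne⟩ := h
      symm
      apply prod_eq_zero he
      revert hne
      generalize ip x y e = p
      generalize β e = q
      revert p q
      decide
  have h4 : (2 : ℤ) ^ T.card * ((B.filter fun y => ∀ e ∈ T, ip x y e = β e).card : ℤ) =
      ∑ y ∈ B, (if (∀ e ∈ T, ip x y e = β e) then (2 : ℤ) ^ T.card else 0) := by
    rw [← sum_filter, sum_const, nsmul_eq_mul, mul_comm]
  rw [h4]
  simp only [h1]
  rw [sum_comm]
  refine sum_congr rfl fun S _ => ?_
  rw [bias, mul_sum]

end Pool.Agent.W967.RC
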