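import Mathlib

set_option autoImplicit false

/-! Definitions: search trees and refutations with comparisons. -/

namespace Pool.Agent.W967.RC

open Finset

/-- The function `f` depends only on the entries of the tuple with index in `A`. -/
def Dep {k n : ℕ} (A : Finset (Fin k)) (f : (Fin k → Fin n) → ℝ) : Prop :=
  ∀ c c' : Fin k → Fin n, (∀ i ∈ A, c i = c' i) → f c = f c'

/-- Decision trees with comparisons; the leaves are labelled with pairs of indices. -/
inductive Tree (k n : ℕ) : Type
  | out (i j : Fin k) : Tree k n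
  | cmp (f g : (Fin k → Fin n) → ℝ) (t u : Tree k n) : Tree k n

/-- depth -/
def Tree.depth {k n : ℕ} : Tree k n → ℕ
  | .out _ _ => 0
  | .cmp _ _ t u => max t.depth u.depth + 1

open Classical in
/-- the output -/
noncomputable def Tree.run {k n : ℕ} : Tree k n → (Fin k → Fin n) → Fin k × Fin k
  | .out i j, _ => (i, j)
  | .cmp f g t u, c => if f c ≤ g c then t.run c else u.run c

/-- each comparison is between a function of the entries in `A` and a function of the others -/
def Tree.Split {k n : ℕ} (A : Finset (Fin k)) : Tree k n → Prop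
  | .out _ _ => True
  | .cmp f g t u => Dep A f ∧ Dep Aᶜ g ∧ t.Split A ∧ u.Split A

/-- the output is a pair of different indices with nonadjacent vertices -/
def Tree.Solves {k n : ℕ} (G : SimpleGraph (Fin n)) (T : Tree k n) : Prop :=
  ∀ c, (T.run c).1 ≠ (T.run c).2 ∧ ¬ G.Adj (c (T.run c).1) (c (T.run c).2)

variable {k n : ℕ}

/-- `P` is a Boolean combination of `r` comparisons, each of them between a function of the entries
of the tuple in `A` and a function of the other entries. -/
def Cmp (A : Finset (Fin k)) (r : ℕ) (P : (Fin k → Fin n) → Prop) : Prop :=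
  ∃ f g : Fin r → (Fin k → Fin n) → ℝ, (∀ i, Dep A (f i) ∧ Dep Aᶜ (g i)) ∧
    ∀ c c', (∀ i, f i c ≤ g i c ↔ f i c' ≤ g i c') → (P c → P c')

/-- A sequence of states of knowledge: nothing is known at the beginning, a contradiction is known
at the end, and each step uses that two entries of the tuple are adjacent. -/
structure Seq (G : SimpleGraph (Fin n)) (A : Finset (Fin k)) (r L : ℕ)
    (P : ℕ → (Fin k → Fin n) → Prop) : Prop where
  cmp : ∀ s, Cmp A r (P s)
  start : ∀ c, P 0 c
  stop : ∀ c, ¬ P L c
  step : ∀ s < L, ∃ i j : Fin k, i ≠ j ∧ ∀ c, P s c → G.Adj (c i) (c j) → P (s + 1) c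

/-- Tree-like derivations from the assumptions `Hyp`, with `w` leaves that use adjacency. -/
inductive Der (G : SimpleGraph (Fin n)) (A : Finset (Fin k)) (r : ℕ) :
    Set ((Fin k → Fin n) → Prop) → ((Fin k → Fin n) → Prop) → ℕ → Prop
  | hyp (H : Set ((Fin k → Fin n) → Prop)) (P : (Fin k → Fin n) → Prop) (hP : P ∈ H)
      (hc : Cmp A r P) : Der G A r H P 0
  | ax (H : Set ((Fin k → Fin n) → Prop)) (P : (Fin k → Fin n) → Prop) (i j : Fin k)
      (hij : i ≠ j) (hP : ∀ c, G.Adj (c i) (c j) → P c) (hc : Cmp A r P) : Der G A r H P 1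
  | inf (H : Set ((Fin k → Fin n) → Prop)) (P Q R : (Fin k → Fin n) → Prop) (a b : ℕ)
      (h1 : Der G A r H P a) (h2 : Der G A r H Q b) (h3 : ∀ c, P c → Q c → R c)
      (hc : Cmp A r R) : Der G A r H R (a + b)

end Pool.Agent.W967.RC
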