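import Pool.Agent.W967.RC.Bias

set_option autoImplicit false
set_option linter.unusedSectionVars false

/-! Dense sets and good vectors. -/

namespace Pool.Agent.W967.RC

open Finset

variable {E : Type} [Fintype E] [DecidableEq E] {b : ℕ}

/-- `B` is dense outside `K`, with constant `c` and rate `3 a` bits for each coordinate -/
def Dn (a c : ℕ) (K : Finset E) (B : Finset (Vec E b)) : Prop :=
  ∀ S : Finset E, Disjoint S K → ∀ γ : Vec E b,
    (B.filter fun y => Eqon S y γ).card * 2 ^ (3 * a * S.card) ≤ c * B.card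

/-- the vector `x` is good for `B` outside `K` -/
def Good (K : Finset E) (B : Finset (Vec E b)) (x : Vec E b) : Prop :=
  ∀ S : Finset E, Disjoint S K → S.Nonempty →
    |bias B (mask S x)| * 2 ^ (Fintype.card E + 1) ≤ B.card

instance {K : Finset E} {B : Finset (Vec E b)} (x : Vec E b) : Decidable (Good K B x) := by
  unfold Good; infer_instance

theorem Dn.mono {a c c' : ℕ} {K : Finset E} {B B' : Finset (Vec E b)} (h : Dn a c K B)
    (hB : B' ⊆ B) (hc : c * B.card ≤ c' * B'.card) : Dn a c' K B' := by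
  intro S hS γ
  refine le_trans ?_ ((h S hS γ).trans hc)
  exact Nat.mul_le_mul_right _ (card_le_card (filter_subset_filter _ hB))

theorem Dn.monoK {a c : ℕ} {K K' : Finset E} {B : Finset (Vec E b)} (h : Dn a c K B)
    (hK : K ⊆ K') : Dn a c K' B := fun S hS γ => h S (hS.mono_right hK) γ

theorem Eqon.symm {S : Finset E} {x y : Vec E b} (h : Eqon S x y) : Eqon S y x :=
  fun e he => (h e he).symm

/-- counting with a good vector -/
theorem Good.count {K : Finset E} {B : Finset (Vec E b)} {x : Vec E b} (h : Good K B x)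
    (T : Finset E) (hT : Disjoint T K) (β : E → ZMod 2) :
    B.card ≤ 2 ^ (T.card + 1) * (B.filter fun y => ∀ e ∈ T, ip x y e = β e).card := by
  classical
  have h1 := count_eq B x T β
  have h2 : (∅ : Finset E) ∈ T.powerset := by simp
  rw [← add_sum_erase _ _ h2] at h1
  have h3 : bias B (mask ∅ x) = B.card := by
    have : mask (∅ : Finset E) x = (0 : Vec E b) := by
      funext e
      simp [mask]
    rw [this, bias]
    have : ∀ y : Vec E b, chi 0 y = 1 := by
      intro y
      simp [chi, ip, sg]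
    simp [this]
  simp only [sum_empty, sg_zero, one_mul, h3] at h1
  have h4 : |∑ S ∈ T.powerset.erase ∅, sg (∑ e ∈ S, β e) * bias B (mask S x)| *
      2 ^ (Fintype.card E + 1) ≤ 2 ^ (Fintype.card E) * B.card := by
    calc |∑ S ∈ T.powerset.erase ∅, sg (∑ e ∈ S, β e) * bias B (mask S x)| *
      2 ^ (Fintype.card E + 1)
        ≤ (∑ S ∈ T.powerset.erase ∅, |sg (∑ e ∈ S, β e) * bias B (mask S x)|) *
          2 ^ (Fintype.card E + 1) := by
            exact mul_le_mul_of_nonneg_right (abs_sum_le_sum_abs _ _) (by positivity)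
      _ = ∑ S ∈ T.powerset.erase ∅, |sg (∑ e ∈ S, β e) * bias B (mask S x)| *
          2 ^ (Fintype.card E + 1) := by rw [sum_mul]
      _ ≤ ∑ S ∈ T.powerset.erase ∅, (B.card : ℤ) := by
            refine sum_le_sum fun S hS => ?_
            rw [mem_erase, mem_powerset] at hS
            have h5 : |sg (∑ e ∈ S, β e)| = 1 := by
              unfold sg
              split_ifs <;> simp
            rw [abs_mul, h5, one_mul]
            exact h S (hT.mono_left hS.2) (nonempty_iff_ne_empty.2 hS.1)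
      _ ≤ 2 ^ (Fintype.card E) * B.card := by
            rw [sum_const, nsmul_eq_mul]
            refine mul_le_mul_of_nonneg_right ?_ (by positivity)
            have h6 : (T.powerset.erase ∅).card ≤ 2 ^ Fintype.card E := by
              refine (card_erase_le).trans ?_
              rw [card_powerset]
              exact Nat.pow_le_pow_right (by norm_num) (card_le_univ T)
            exact_mod_cast h6
  have h5 : 2 * |∑ S ∈ T.powerset.erase ∅, sg (∑ e ∈ S, β e) * bias B (mask S x)| ≤ B.card := by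
    have hp : (0 : ℤ) < 2 ^ Fintype.card E := by positivity
    rw [pow_succ] at h4
    nlinarith [h4, hp]
  have h6 := neg_abs_le (∑ S ∈ T.powerset.erase ∅, sg (∑ e ∈ S, β e) * bias B (mask S x))
  have h7 : (B.card : ℤ) ≤ 2 ^ (T.card + 1) *
      ((B.filter fun y => ∀ e ∈ T, ip x y e = β e).card : ℤ) := by
    rw [pow_succ, mul_comm ((2 : ℤ) ^ T.card) 2, mul_assoc, h1]
    linarith
  exact_mod_cast h7

/-- the number of bad vectors supported on `S` -/
theorem card_bad_supp {a c : ℕ} (hb : b = 4 * a) {K : Finset E} {B : Finset (Vec E b)}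
    (hB : Dn a c K B) (hB0 : B.Nonempty) (S : Finset E) (hS : Disjoint S K) :
    ((supp S : Finset (Vec E b)).filter fun x =>
      (B.card : ℤ) < |bias B x| * 2 ^ (Fintype.card E + 1)).card ≤
      c * 2 ^ (2 * (Fintype.card E + 1)) * 2 ^ (a * S.card) := by
  classical
  set m := Fintype.card E with hm
  set N := ((supp S : Finset (Vec E b)).filter fun x =>
      (B.card : ℤ) < |bias B x| * 2 ^ (m + 1)) with hN
  have h1 := parseval B S
  have h2 : ∀ y ∈ B, (((B.filter fun y' => Eqon S y y').card : ℤ)) * 2 ^ (3 * a * S.card) ≤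
      c * B.card := by
    intro y _
    have := hB S hS y
    have h3 : (B.filter fun y' => Eqon S y y') = B.filter fun y' => Eqon S y' y := by
      ext y'
      simp only [mem_filter]
      exact ⟨fun h => ⟨h.1, h.2.symm⟩, fun h => ⟨h.1, h.2.symm⟩⟩
    rw [h3]
    exact_mod_cast this
  have h3 : (∑ y ∈ B, ((B.filter fun y' => Eqon S y y').card : ℤ)) * 2 ^ (3 * a * S.card) ≤
      c * B.card ^ 2 := by
    rw [sum_mul]
    refine (sum_le_sum h2).trans ?_
    rw [sum_const, nsmul_eq_mul]
    apply le_of_eq; ring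
  have h4 : (N.card : ℤ) * B.card ^ 2 ≤ (∑ x ∈ supp S, bias B x ^ 2) * 2 ^ (2 * (m + 1)) := by
    rw [sum_mul]
    calc (N.card : ℤ) * B.card ^ 2 = ∑ x ∈ N, (B.card : ℤ) ^ 2 := by
          rw [sum_const, nsmul_eq_mul]
      _ ≤ ∑ x ∈ N, bias B x ^ 2 * 2 ^ (2 * (m + 1)) := by
          refine sum_le_sum fun x hx => ?_
          rw [hN, mem_filter] at hx
          have h5 : (B.card : ℤ) ^ 2 ≤ (|bias B x| * 2 ^ (m + 1)) ^ 2 := by
            apply pow_le_pow_left₀ (by positivity) hx.2.le
          rw [mul_pow, sq_abs, ← pow_mul, mul_comm (m + 1) 2] at h5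
          exact h5
      _ ≤ _ := by
          refine sum_le_sum_of_subset_of_nonneg (filter_subset _ _) fun x _ _ => by positivity
  rw [h1] at h4
  have hBp : (0 : ℤ) < B.card ^ 2 := by
    have : 0 < B.card := hB0.card_pos
    positivity
  have hq : ((2 : ℤ) ^ b) ^ S.card = 2 ^ (4 * a * S.card) := by
    rw [← pow_mul]
    congr 2
  have h5 : (N.card : ℤ) * 2 ^ (3 * a * S.card) ≤
      c * 2 ^ (2 * (m + 1)) * 2 ^ (4 * a * S.card) := by
    have h6 : (N.card : ℤ) * 2 ^ (3 * a * S.card) * B.card ^ 2 ≤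
        c * 2 ^ (2 * (m + 1)) * 2 ^ (4 * a * S.card) * B.card ^ 2 := by
      calc (N.card : ℤ) * 2 ^ (3 * a * S.card) * B.card ^ 2
          = ((N.card : ℤ) * B.card ^ 2) * 2 ^ (3 * a * S.card) := by ring
        _ ≤ (((2 : ℤ) ^ b) ^ S.card * (∑ y ∈ B, ((B.filter fun y' => Eqon S y y').card : ℤ)) *
              2 ^ (2 * (m + 1))) * 2 ^ (3 * a * S.card) :=
            mul_le_mul_of_nonneg_right h4 (by positivity)
        _ = ((2 : ℤ) ^ b) ^ S.card * 2 ^ (2 * (m + 1)) *
              ((∑ y ∈ B, ((B.filter fun y' => Eqon S y y').card : ℤ)) * 2 ^ (3 * a * S.card)) := by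
            ring
        _ ≤ ((2 : ℤ) ^ b) ^ S.card * 2 ^ (2 * (m + 1)) * (c * B.card ^ 2) :=
            mul_le_mul_of_nonneg_left h3 (by positivity)
        _ = _ := by
            rw [hq]
            ring
    exact le_of_mul_le_mul_right h6 hBp
  have h7 : (N.card : ℤ) ≤ c * 2 ^ (2 * (m + 1)) * 2 ^ (a * S.card) := by
    have h8 : (2 : ℤ) ^ (4 * a * S.card) = 2 ^ (a * S.card) * 2 ^ (3 * a * S.card) := by
      rw [← pow_add]
      congr 1
      ring
    rw [h8, ← mul_assoc] at h5
    exact le_of_mul_le_mul_right h5 (by positivity)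
  exact_mod_cast h7

/-- most vectors of a dense set are good for a dense set -/
theorem card_bad {a c c' : ℕ} (hb : b = 4 * a) {K : Finset E} {A B : Finset (Vec E b)}
    (hA : Dn a c' K A) (hB : Dn a c K B) (hB0 : B.Nonempty) (hc : c * c' ≤ 64)
    (ha : 4 * Fintype.card E + 10 ≤ 2 * a) :
    (A.filter fun x => ¬ Good K B x).card * 2 ^ (Fintype.card E + 2) ≤ A.card := by
  classical
  set m := Fintype.card E with hm
  -- for one `S`
  have h1 : ∀ S : Finset E, Disjoint S K → S.Nonempty →
      (A.filter fun x => (B.card : ℤ) < |bias B (mask S x)| * 2 ^ (m + 1)).card * 2 ^ (2 * a) ≤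
        64 * 2 ^ (2 * (m + 1)) * A.card := by
    intro S hS hne
    set N := ((supp S : Finset (Vec E b)).filter fun x =>
      (B.card : ℤ) < |bias B x| * 2 ^ (m + 1)) with hN
    have h2 : (A.filter fun x => (B.card : ℤ) < |bias B (mask S x)| * 2 ^ (m + 1)).card ≤
        ∑ ξ ∈ N, (A.filter fun x => Eqon S x ξ).card := by
      rw [← card_sigma]
      refine card_le_card_of_injOn (fun x => ⟨mask S x, x⟩) ?_ ?_
      · intro x hx
        rw [mem_coe, mem_filter] at hx
        rw [mem_coe, mem_sigma]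
        refine ⟨?_, ?_⟩
        · rw [hN, mem_filter]
          exact ⟨mask_mem S x, hx.2⟩
        · rw [mem_filter]
          refine ⟨hx.1, fun e he => ?_⟩
          simp [mask, he]
      · intro x _ y _ hxy
        simp only [Sigma.mk.injEq] at hxy
        exact eq_of_heq hxy.2
    have h3 : (∑ ξ ∈ N, (A.filter fun x => Eqon S x ξ).card) * 2 ^ (3 * a * S.card) ≤
        N.card * (c' * A.card) := by
      rw [sum_mul, ← smul_eq_mul (a := N.card)]
      exact sum_le_card_nsmul _ _ _ fun ξ _ => hA S hS ξ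
    have h4 := card_bad_supp hb hB hB0 S hS
    rw [← hm, ← hN] at h4
    have h5 : (A.filter fun x => (B.card : ℤ) < |bias B (mask S x)| * 2 ^ (m + 1)).card *
        2 ^ (3 * a * S.card) ≤ 64 * 2 ^ (2 * (m + 1)) * 2 ^ (a * S.card) * A.card := by
      calc _ ≤ (∑ ξ ∈ N, (A.filter fun x => Eqon S x ξ).card) * 2 ^ (3 * a * S.card) :=
            Nat.mul_le_mul_right _ h2
        _ ≤ N.card * (c' * A.card) := h3
        _ ≤ (c * 2 ^ (2 * (m + 1)) * 2 ^ (a * S.card)) * (c' * A.card) := Nat.mul_le_mul_right _ h4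
        _ = (c * c') * (2 ^ (2 * (m + 1)) * 2 ^ (a * S.card) * A.card) := by ring
        _ ≤ 64 * (2 ^ (2 * (m + 1)) * 2 ^ (a * S.card) * A.card) := Nat.mul_le_mul_right _ hc
        _ = _ := by ring
    have h6 : (2 : ℕ) ^ (3 * a * S.card) = 2 ^ (a * S.card) * 2 ^ (2 * a * S.card) := by
      rw [← pow_add]; congr 1; ring
    rw [h6] at h5
    have h7 : (A.filter fun x => (B.card : ℤ) < |bias B (mask S x)| * 2 ^ (m + 1)).card *
        2 ^ (2 * a * S.card) ≤ 64 * 2 ^ (2 * (m + 1)) * A.card := by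
      have hp : 0 < 2 ^ (a * S.card) := by positivity
      refine Nat.le_of_mul_le_mul_left ?_ hp
      calc _ = (A.filter fun x => (B.card : ℤ) < |bias B (mask S x)| * 2 ^ (m + 1)).card *
            (2 ^ (a * S.card) * 2 ^ (2 * a * S.card)) := by ring
        _ ≤ _ := h5
        _ = _ := by ring
    refine le_trans (Nat.mul_le_mul_left _ ?_) h7
    refine Nat.pow_le_pow_right (by norm_num) ?_
    have : 1 ≤ S.card := hne.card_pos
    nlinarith
  -- union bound
  have h8 : (A.filter fun x => ¬ Good K B x) ⊆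
      ((univ : Finset (Finset E)).filter fun S => Disjoint S K ∧ S.Nonempty).biUnion fun S =>
        A.filter fun x => (B.card : ℤ) < |bias B (mask S x)| * 2 ^ (m + 1) := by
    intro x hx
    rw [mem_filter] at hx
    obtain ⟨hxA, hx⟩ := hx
    unfold Good at hx
    push Not at hx
    obtain ⟨S, hS, hne, hlt⟩ := hx
    rw [mem_biUnion]
    exact ⟨S, by simp [hS, hne], by rw [mem_filter]; exact ⟨hxA, hlt⟩⟩
  have h9 : (A.filter fun x => ¬ Good K B x).card * 2 ^ (2 * a) ≤
      2 ^ m * (64 * 2 ^ (2 * (m + 1)) * A.card) := by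
    refine le_trans (Nat.mul_le_mul_right _ ((card_le_card h8).trans card_biUnion_le)) ?_
    rw [sum_mul]
    have h10 : ∀ S ∈ ((univ : Finset (Finset E)).filter fun S => Disjoint S K ∧ S.Nonempty),
        (A.filter fun x => (B.card : ℤ) < |bias B (mask S x)| * 2 ^ (m + 1)).card * 2 ^ (2 * a) ≤
          64 * 2 ^ (2 * (m + 1)) * A.card := by
      intro S hS
      rw [mem_filter] at hS
      exact h1 S hS.2.1 hS.2.2
    refine (sum_le_card_nsmul _ _ _ h10).trans ?_
    rw [smul_eq_mul]
    refine Nat.mul_le_mul_right _ ?_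
    refine (card_filter_le _ _).trans ?_
    rw [card_univ, Fintype.card_finset]
  have h11 : (2 : ℕ) ^ (4 * m + 10) ≤ 2 ^ (2 * a) := Nat.pow_le_pow_right (by norm_num) ha
  have h12 : (A.filter fun x => ¬ Good K B x).card * 2 ^ (4 * m + 10) ≤
      2 ^ m * (64 * 2 ^ (2 * (m + 1)) * A.card) := (Nat.mul_le_mul_left _ h11).trans h9
  have h13 : (2 : ℕ) ^ m * (64 * 2 ^ (2 * (m + 1)) * A.card) = 2 ^ (3 * m + 8) * A.card := by
    have : (2 : ℕ) ^ (3 * m + 8) = 2 ^ m * (64 * 2 ^ (2 * (m + 1))) := by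
      have h64 : (64 : ℕ) = 2 ^ 6 := by norm_num
      rw [h64, ← pow_add, ← pow_add]
      congr 1; ring
    rw [this]; ring
  rw [h13] at h12
  have h14 : (2 : ℕ) ^ (4 * m + 10) = 2 ^ (m + 2) * 2 ^ (3 * m + 8) := by
    rw [← pow_add]; congr 1; ring
  rw [h14, ← mul_assoc, mul_comm (2 ^ (3 * m + 8)) A.card] at h12
  exact Nat.le_of_mul_le_mul_right h12 (by positivity)

end Pool.Agent.W967.RC
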