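import Pool.Agent.W967.RC.Tse
import Pool.Agent.W967.RC.Defs

set_option autoImplicit false
set_option linter.unusedSectionVars false

/-! The graph. -/

namespace Pool.Agent.W967.RC

open Finset

theorem sum_symm {t : ℕ} (h : Fin t → Fin t → ZMod 2) (hs : ∀ v u, v ≠ u → h v u = h u v) :
    ∑ v, ∑ u ∈ univ.erase v, h v u = 0 := by
  rw [sum_sigma']
  refine sum_involution (fun p _ => ⟨p.2, p.1⟩) ?_ ?_ ?_ ?_
  · rintro ⟨v, u⟩ hp
    simp only [mem_sigma, mem_univ, true_and, mem_erase, and_true] at hp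
    show h v u + h u v = 0
    rw [hs v u (Ne.symm hp)]
    exact CharTwo.add_self_eq_zero _
  · rintro ⟨v, u⟩ hp _ h2
    simp only [mem_sigma, mem_univ, true_and, mem_erase] at hp
    simp only [Sigma.mk.injEq] at h2
    exact hp.1 h2.1
  · rintro ⟨v, u⟩ hp
    simp only [mem_sigma, mem_univ, true_and, mem_erase, and_true] at hp ⊢
    exact hp.symm
  · rintro ⟨v, u⟩ _
    rfl

/-- Vertices: for both sides `true`, `false` and `v : Fin t` all assignments to the edges at `v`;
and `r` further vertices. -/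
abbrev BV (t b r : ℕ) : Type := (Bool × Fin t) × (Fin t → Fin b → ZMod 2) ⊕ Fin r

/-- adjacency -/
def adjB {t b r : ℕ} (v₀ : Fin t) : BV t b r → BV t b r → Prop
  | .inl ((s, v), x), .inl ((s', v'), x') =>
      if s = s' then v ≠ v' ∧ x v' = x' v
      else (v = v' → ∑ u ∈ univ.erase v, ∑ i, x u i * x' u i = chg v₀ v)
  | .inl _, .inr _ => True
  | .inr _, .inl _ => True
  | .inr i, .inr j => i ≠ j

theorem adjB_ll {t b r : ℕ} (v₀ : Fin t) (s s' : Bool) (v v' : Fin t)
    (x x' : Fin t → Fin b → ZMod 2) :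
    adjB (r := r) v₀ (.inl ((s, v), x)) (.inl ((s', v'), x')) =
      if s = s' then v ≠ v' ∧ x v' = x' v
      else (v = v' → ∑ u ∈ univ.erase v, ∑ i, x u i * x' u i = chg v₀ v) := rfl

/-- the graph -/
def G₀ (t b r : ℕ) (v₀ : Fin t) : SimpleGraph (BV t b r) where
  Adj := adjB v₀
  symm := by
    constructor
    rintro (⟨⟨s, v⟩, x⟩ | i) (⟨⟨s', v'⟩, x'⟩ | j) h
    · rw [adjB_ll] at h ⊢
      by_cases hs : s = s'
      · rw [if_pos hs] at h
        rw [if_pos hs.symm]
        exact ⟨h.1.symm, h.2.symm⟩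
      · rw [if_neg hs] at h
        rw [if_neg (Ne.symm hs)]
        rintro rfl
        rw [← h rfl]
        simp only [mul_comm]
    · trivial
    · trivial
    · exact Ne.symm h
  loopless := by
    constructor
    rintro (⟨⟨s, v⟩, x⟩ | i) h
    · rw [adjB_ll, if_pos rfl] at h
      exact h.1 rfl
    · exact h rfl

theorem G₀_adj {t b r : ℕ} {v₀ : Fin t} {p q : BV t b r} :
    (G₀ t b r v₀).Adj p q ↔ adjB v₀ p q := Iff.rfl

/-- the block of a vertex -/
def blk {t b r : ℕ} : BV t b r → (Bool × Fin t) ⊕ Fin r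
  | .inl (p, _) => .inl p
  | .inr i => .inr i

theorem blk_adj {t b r : ℕ} {v₀ : Fin t} {p q : BV t b r} (h : (G₀ t b r v₀).Adj p q) :
    blk p ≠ blk q := by
  rcases p with ⟨⟨s, v⟩, x⟩ | i <;> rcases q with ⟨⟨s', v'⟩, x'⟩ | j
  · rw [G₀_adj] at h
    intro he
    simp only [blk, Sum.inl.injEq, Prod.mk.injEq] at he
    obtain ⟨rfl, rfl⟩ := he
    rw [adjB_ll, if_pos rfl] at h
    exact h.1 rfl
  · simp [blk]
  · simp [blk]
  · rw [G₀_adj] at h
    intro he
    simp only [blk, Sum.inr.injEq] at he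
    exact h he

theorem cliqueFree₀ (t b r : ℕ) (v₀ : Fin t) : (G₀ t b r v₀).CliqueFree (2 * t + r) := by
  classical
  intro s hs
  have hinj : Set.InjOn blk (s : Set (BV t b r)) := by
    intro p hp q hq hpq
    by_contra hne
    exact blk_adj (hs.isClique hp hq hne) hpq
  have himg : s.image blk = (univ : Finset ((Bool × Fin t) ⊕ Fin r)) := by
    apply eq_univ_of_card
    rw [card_image_of_injOn hinj, hs.card_eq]
    simp
  have hall : ∀ p : Bool × Fin t, ∃ x : Fin t → Fin b → ZMod 2, (Sum.inl (p, x) : BV t b r) ∈ s := by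
    intro p
    have h1 : (Sum.inl p : (Bool × Fin t) ⊕ Fin r) ∈ s.image blk := by rw [himg]; exact mem_univ _
    rw [mem_image] at h1
    obtain ⟨q, hq, hb⟩ := h1
    rcases q with ⟨p', x⟩ | i
    · simp only [blk, Sum.inl.injEq] at hb
      subst hb
      exact ⟨x, hq⟩
    · simp [blk] at hb
  choose X hX using hall
  have hcons : ∀ (σ : Bool) (v u : Fin t), v ≠ u → X (σ, v) u = X (σ, u) v := by
    intro σ v u hvu
    have h1 := hs.isClique (hX (σ, v)) (hX (σ, u)) (by
      intro h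
      simp only [Sum.inl.injEq, Prod.mk.injEq] at h
      exact hvu h.1.2)
    rw [G₀_adj] at h1
    rw [adjB_ll, if_pos rfl] at h1
    exact h1.2
  have hpar : ∀ v : Fin t, ∑ u ∈ univ.erase v, ∑ i, X (true, v) u i * X (false, v) u i =
      chg v₀ v := by
    intro v
    have h1 := hs.isClique (hX (true, v)) (hX (false, v)) (by
      intro h
      simp at h)
    rw [G₀_adj] at h1
    rw [adjB_ll, if_neg (by simp)] at h1
    exact h1 rfl
  have h1 := sum_symm (fun v u => ∑ i, X (true, v) u i * X (false, v) u i) (by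
    intro v u hvu
    simp only [hcons true v u hvu, hcons false v u hvu])
  simp only [hpar] at h1
  have h2 : ∑ v, chg v₀ v = 1 := by simp [chg]
  rw [h2] at h1
  exact one_ne_zero h1

/-- the tuple of vertices given by two assignments -/
def tup {k t b r n : ℕ} (e : Fin k ≃ (Bool × Fin t) ⊕ Fin r) (ι : BV t b r ↪ Fin n)
    (x y : Vec (Sym2 (Fin t)) b) (i : Fin k) : Fin n :=
  match e i with
  | .inl (true, v) => ι (.inl ((true, v), fun u => x s(v, u)))
  | .inl (false, v) => ι (.inl ((false, v), fun u => y s(v, u)))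
  | .inr j => ι (.inr j)

/-- first half of the indices -/
def half {k t r : ℕ} (e : Fin k ≃ (Bool × Fin t) ⊕ Fin r) : Finset (Fin k) :=
  univ.filter fun i => ∃ v, e i = .inl (true, v)

theorem card_half {k t r : ℕ} (e : Fin k ≃ (Bool × Fin t) ⊕ Fin r) : (half e).card = t := by
  classical
  have : half e = (univ : Finset (Fin t)).image fun v => e.symm (.inl (true, v)) := by
    ext i
    simp only [half, mem_filter, mem_univ, true_and, mem_image]
    constructor
    · rintro ⟨v, hv⟩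
      exact ⟨v, by rw [← hv, Equiv.symm_apply_apply]⟩
    · rintro ⟨v, rfl⟩
      exact ⟨v, by simp⟩
  rw [this, card_image_of_injective, card_univ, Fintype.card_fin]
  intro v v' h
  have := e.symm.injective h
  simpa using this

theorem tup_half {k t b r n : ℕ} (e : Fin k ≃ (Bool × Fin t) ⊕ Fin r) (ι : BV t b r ↪ Fin n)
    (x y y' : Vec (Sym2 (Fin t)) b) (i : Fin k) (hi : i ∈ half e) :
    tup e ι x y i = tup e ι x y' i := by
  simp only [half, mem_filter, mem_univ, true_and] at hi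
  obtain ⟨v, hv⟩ := hi
  unfold tup
  rw [hv]

theorem tup_half_compl {k t b r n : ℕ} (e : Fin k ≃ (Bool × Fin t) ⊕ Fin r) (ι : BV t b r ↪ Fin n)
    (x x' y : Vec (Sym2 (Fin t)) b) (i : Fin k) (hi : i ∈ (half e)ᶜ) :
    tup e ι x y i = tup e ι x' y i := by
  simp only [half, mem_compl, mem_filter, mem_univ, true_and, not_exists] at hi
  unfold tup
  rcases h : e i with ⟨_ | _, v⟩ | j
  · rfl
  · exact absurd h (hi v)
  · rfl

/-- the vertex of a pair of indices -/
def lab {k t r : ℕ} (v₀ : Fin t) (e : Fin k ≃ (Bool × Fin t) ⊕ Fin r) (i : Fin k) : Fin t :=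
  match e i with
  | .inl (_, v) => v
  | .inr _ => v₀

theorem viol_of {k t b r n : ℕ} (v₀ : Fin t) (e : Fin k ≃ (Bool × Fin t) ⊕ Fin r)
    (ι : BV t b r ↪ Fin n) (x y : Vec (Sym2 (Fin t)) b) (i j : Fin k) (hij : i ≠ j)
    (h : ¬ ((G₀ t b r v₀).map ι).Adj (tup e ι x y i) (tup e ι x y j)) :
    star (ip x y) (lab v₀ e i) ≠ chg v₀ (lab v₀ e i) := by
  have hne : e i ≠ e j := fun h => hij (e.injective h)
  unfold tup at h
  unfold lab
  rcases hi : e i with ⟨_ | _, v⟩ | i' <;> rcases hj : e j with ⟨_ | _, v'⟩ | j' <;>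
    rw [hi, hj] at h hne <;> simp only [SimpleGraph.map_adj_apply] at h <;>
    rw [G₀_adj] at h
  · rw [adjB_ll, if_pos rfl] at h
    refine absurd ⟨?_, ?_⟩ h
    · rintro rfl
      exact hne rfl
    · rw [Sym2.eq_swap]
  · rw [adjB_ll, if_neg (by simp)] at h
    push Not at h
    obtain ⟨rfl, h⟩ := h
    intro h2
    apply h
    rw [← h2]
    unfold star ip
    simp only [mul_comm]
  · exact absurd trivial h
  · rw [adjB_ll, if_neg (by simp)] at h
    push Not at h
    obtain ⟨rfl, h⟩ := h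
    intro h2
    apply h
    rw [← h2]
    rfl
  · rw [adjB_ll, if_pos rfl] at h
    refine absurd ⟨?_, ?_⟩ h
    · rintro rfl
      exact hne rfl
    · rw [Sym2.eq_swap]
  · exact absurd trivial h
  · exact absurd trivial h
  · exact absurd trivial h
  · refine absurd ?_ h
    rintro rfl
    exact hne rfl

/-- the protocol of a decision tree -/
noncomputable def toProt {k t b r n : ℕ} (v₀ : Fin t) (e : Fin k ≃ (Bool × Fin t) ⊕ Fin r)
    (ι : BV t b r ↪ Fin n) : Tree k n → Prot (Sym2 (Fin t)) b (Fin t)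
  | .out i _ => .out (lab v₀ e i)
  | .cmp f g T U => .cmp (fun x => f (tup e ι x 0)) (fun y => g (tup e ι 0 y))
      (toProt v₀ e ι T) (toProt v₀ e ι U)

theorem toProt_depth {k t b r n : ℕ} (v₀ : Fin t) (e : Fin k ≃ (Bool × Fin t) ⊕ Fin r)
    (ι : BV t b r ↪ Fin n) (T : Tree k n) : (toProt v₀ e ι T).depth = T.depth := by
  induction T with
  | out i j => rfl
  | cmp f g T U ihT ihU => simp only [toProt, Prot.depth, Tree.depth, ihT, ihU]

theorem toProt_run {k t b r n : ℕ} (v₀ : Fin t) (e : Fin k ≃ (Bool × Fin t) ⊕ Fin r)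
    (ι : BV t b r ↪ Fin n) (T : Tree k n) (hT : T.Split (half e))
    (x y : Vec (Sym2 (Fin t)) b) :
    (toProt v₀ e ι T).run x y = lab v₀ e (T.run (tup e ι x y)).1 := by
  induction T with
  | out i j => rfl
  | cmp f g T U ihT ihU =>
    obtain ⟨hf, hg, h1, h2⟩ := hT
    have hf' : f (tup e ι x 0) = f (tup e ι x y) :=
      hf _ _ fun i hi => tup_half e ι x 0 y i hi
    have hg' : g (tup e ι 0 y) = g (tup e ι x y) :=
      hg _ _ fun i hi => tup_half_compl e ι 0 x y i hi
    simp only [toProt, Prot.run, Tree.run, hf', hg', ihT h1, ihU h2]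
    split_ifs <;> rfl

theorem graph_lower {k t a r n w : ℕ} (ht : 0 < t) (hk : k = 2 * t + r)
    (hn : 2 * t * 2 ^ (4 * a * t) + r ≤ n) (ha : 2 * t ^ 2 + 5 ≤ a)
    (hw : 4 * w < (t - 1) * (t - 2)) :
    ∃ G : SimpleGraph (Fin n), G.CliqueFree k ∧ ∃ A : Finset (Fin k), A.card = t ∧
      ∀ T : Tree k n, T.Split A → T.Solves G → (a - 3) * w < 7 * T.depth := by
  classical
  let v₀ : Fin t := ⟨0, ht⟩
  have hcard : Fintype.card (BV t (4 * a) r) = 2 * t * 2 ^ (4 * a * t) + r := by
    simp only [Fintype.card_sum, Fintype.card_prod, Fintype.card_bool, Fintype.card_fin,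
      Fintype.card_fun, ZMod.card, ← pow_mul]
  obtain ⟨ι⟩ : Nonempty (BV t (4 * a) r ↪ Fin n) := by
    apply Function.Embedding.nonempty_of_card_le
    rw [hcard, Fintype.card_fin]
    exact hn
  have e : Fin k ≃ (Bool × Fin t) ⊕ Fin r := by
    apply Fintype.equivOfCardEq
    simp [hk]
  have : Nonempty (BV t (4 * a) r) := ⟨.inl ((true, v₀), 0)⟩
  refine ⟨(G₀ t (4 * a) r v₀).map ι, ?_, half e, card_half e, ?_⟩
  · rw [SimpleGraph.cliqueFree_map_iff, hk]
    exact cliqueFree₀ t (4 * a) r v₀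
  · intro T hT hS
    rw [← toProt_depth v₀ e ι T]
    refine tse_lower ha hw v₀ _ fun x y => ?_
    rw [toProt_run v₀ e ι T hT]
    exact viol_of v₀ e ι x y _ _ (hS _).1 (hS _).2

end Pool.Agent.W967.RC
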