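import Pool.Agent.W967.RC.Step

set_option autoImplicit false
set_option linter.unusedSectionVars false

/-! Simulation of real communication protocols. -/

namespace Pool.Agent.W967.RC

open Finset

variable {E : Type} [Fintype E] [DecidableEq E] {b : ℕ}

theorem Pot.mono {a p p' : ℕ} {K : Finset E} {A B : Finset (Vec E b)} (h : Pot a p K A B)
    (hp : p ≤ p') : Pot a p' K A B := by
  unfold Pot at *
  exact h.trans (Nat.mul_le_mul_right _ (Nat.pow_le_pow_right (by norm_num) (by omega)))

theorem Pot.card {a p : ℕ} (hb : b = 4 * a) {K : Finset E} {z : E → ZMod 2}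
    {A B : Finset (Vec E b)} (hst : St K z A B) (h : Pot a p K A B) : (a - 3) * K.card ≤ p := by
  have h1 := card_fixed K A hst.fA
  have h2 := card_fixed K B hst.fB
  have hb2 : b * K.card = 4 * a * K.card := by rw [hb]
  have hb3 : b * Fintype.card E = 4 * a * Fintype.card E := by rw [hb]
  rw [hb2, hb3] at h1 h2
  unfold Pot at h
  have h3 : 2 ^ (8 * a * Fintype.card E) * 2 ^ ((a - 3) * K.card) ≤
      2 ^ (8 * a * Fintype.card E) * 2 ^ p := by
    refine h.trans ?_
    calc 2 ^ (p + 8 * a * K.card) * (A.card * B.card)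
        = 2 ^ p * ((A.card * 2 ^ (4 * a * K.card)) * (B.card * 2 ^ (4 * a * K.card))) := by
          have : (2 : ℕ) ^ (p + 8 * a * K.card) =
              2 ^ p * 2 ^ (4 * a * K.card) * 2 ^ (4 * a * K.card) := by
            rw [← pow_add, ← pow_add]; congr 1; ring
          rw [this]
          ring
      _ ≤ 2 ^ p * (2 ^ (4 * a * Fintype.card E) * 2 ^ (4 * a * Fintype.card E)) :=
          Nat.mul_le_mul_left _ (Nat.mul_le_mul h1 h2)
      _ = _ := by
          rw [← pow_add, mul_comm]
          congr 2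
          ring
  have h4 := Nat.le_of_mul_le_mul_left h3 (by positivity)
  exact (Nat.pow_le_pow_iff_right (by norm_num : 1 < 2)).1 h4

theorem settle {a p w : ℕ} (hb : b = 4 * a) (ha : 4 * Fintype.card E + 10 ≤ 2 * a)
    (H : Finset E → (E → ZMod 2) → Prop)
    (ext : ∀ K z S, H K z → (K ∪ S).card ≤ w → ∃ z', (∀ e ∈ K, z' e = z e) ∧ H (K ∪ S) z')
    (hpw : p ≤ (a - 3) * w) :
    ∀ (n : ℕ) (K : Finset E) (z : E → ZMod 2) (A B : Finset (Vec E b)), (univ \ K).card ≤ n →
      St K z A B → Dn a 1 K A → (∀ y ∈ B, Good K A y) → Pot a p K A B → H K z →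
      ∃ K' z' A' B', A' ⊆ A ∧ B' ⊆ B ∧ St K' z' A' B' ∧ Dn a 4 K' A' ∧ Dn a 4 K' B' ∧
        Pot a (p + 2) K' A' B' ∧ H K' z' := by
  intro n
  induction n with
  | zero =>
    intro K z A B hn hst hDA hg hp hH
    obtain ⟨S, B', hdis, hsub, hDB, hS0, hsz, hresp⟩ := half_step hb ha hst.swap
      (hDA.mono subset_rfl (by omega)) hg hp.swap
    have hS : S = ∅ := by
      have h1 : univ \ K = ∅ := card_eq_zero.1 (by omega)
      rw [sdiff_eq_empty_iff_subset] at h1
      rw [eq_empty_iff_forall_notMem]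
      intro e he
      exact disjoint_left.1 hdis he (h1 (mem_univ e))
    obtain ⟨A', hA'1, hst', hg', h4, _⟩ := hresp z fun _ _ => rfl
    obtain ⟨h5, h6⟩ := h4 hS
    have h7 := hS0 hS
    subst h7
    subst hS
    rw [union_empty] at *
    exact ⟨K, z, A', B', hA'1, subset_rfl, hst'.swap, hDA.mono hA'1 (by omega),
      hDB.mono subset_rfl (by omega), h6.swap, hH⟩
  | succ n ih =>
    intro K z A B hn hst hDA hg hp hH
    obtain ⟨S, B', hdis, hsub, hDB, hS0, hsz, hresp⟩ := half_step hb ha hst.swap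
      (hDA.mono subset_rfl (by omega)) hg hp.swap
    rcases S.eq_empty_or_nonempty with rfl | hne
    · obtain ⟨A', hA'1, hst', hg', h4, _⟩ := hresp z fun _ _ => rfl
      obtain ⟨h5, h6⟩ := h4 rfl
      have h7 := hS0 rfl
      subst h7
      rw [union_empty] at *
      exact ⟨K, z, A', B', hA'1, subset_rfl, hst'.swap, hDA.mono hA'1 (by omega),
        hDB.mono subset_rfl (by omega), h6.swap, hH⟩
    · have hcard : (K ∪ S).card ≤ w := by
        have h1 : (a - 3) * (K ∪ S).card ≤ (a - 3) * w := hsz.trans hpw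
        exact Nat.le_of_mul_le_mul_left h1 (by omega)
      obtain ⟨z', hz', hH'⟩ := ext K z S hH hcard
      obtain ⟨A', hA'1, hst', hg', _, h5⟩ := hresp z' hz'
      have hn' : (univ \ (K ∪ S)).card ≤ n := by
        have h1 : (univ \ (K ∪ S)).card + (K ∪ S).card = Fintype.card E := by
          have := card_sdiff_add_card_eq_card (subset_univ (K ∪ S))
          rwa [card_univ] at this
        have h2 : (univ \ K).card + K.card = Fintype.card E := by
          have := card_sdiff_add_card_eq_card (subset_univ K)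
          rwa [card_univ] at this
        have h3 : (K ∪ S).card = K.card + S.card := card_union_of_disjoint hdis.symm
        have h4 := hne.card_pos
        omega
      obtain ⟨K'', z'', B'', A'', h6, h7, h8, h9, h10, h11, h12⟩ :=
        ih (K ∪ S) z' B' A' hn' hst' hDB hg' (h5 hne.ne_empty) hH'
      exact ⟨K'', z'', A'', B'', h7.trans hA'1, h6.trans hsub, h8.swap, h10, h9, h11.swap, h12⟩

/-- a comparison is constant on a quarter of a rectangle -/
theorem halve {X Y : Type} [DecidableEq X] [DecidableEq Y] (A : Finset X) (B : Finset Y)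
    (hA : A.Nonempty) (f : X → ℝ) (g : Y → ℝ) :
    ∃ A' ⊆ A, ∃ B' ⊆ B, A.card ≤ 2 * A'.card ∧ B.card ≤ 2 * B'.card ∧
      ((∀ x ∈ A', ∀ y ∈ B', f x ≤ g y) ∨ ∀ x ∈ A', ∀ y ∈ B', ¬ f x ≤ g y) := by
  classical
  let M : Finset X := A.filter fun x => A.card ≤ 2 * (A.filter fun x' => f x' ≤ f x).card
  have hM : M.Nonempty := by
    obtain ⟨x, hx, hmax⟩ := exists_max_image A f hA
    refine ⟨x, ?_⟩
    simp only [M, mem_filter]
    refine ⟨hx, ?_⟩
    rw [filter_true_of_mem hmax]
    omega
  obtain ⟨x₀, hx₀, hmin⟩ := exists_min_image M f hM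
  simp only [M, mem_filter] at hx₀
  have hlt : 2 * (A.filter fun x' => f x' < f x₀).card < A.card := by
    by_contra hcon
    rw [not_lt] at hcon
    have hne : (A.filter fun x' => f x' < f x₀).Nonempty := by
      rw [nonempty_iff_ne_empty]
      intro h
      rw [h, card_empty, mul_zero] at hcon
      have := hA.card_pos
      omega
    obtain ⟨x₁, hx₁, hmax⟩ := exists_max_image _ f hne
    rw [mem_filter] at hx₁
    have h1 : (A.filter fun x' => f x' ≤ f x₁) = A.filter fun x' => f x' < f x₀ := by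
      ext x
      simp only [mem_filter]
      refine and_congr_right fun hx => ⟨fun h => h.trans_lt hx₁.2, fun h => ?_⟩
      exact hmax x (by rw [mem_filter]; exact ⟨hx, h⟩)
    have h2 : x₁ ∈ M := by
      simp only [M, mem_filter]
      refine ⟨hx₁.1, ?_⟩
      rw [h1]
      exact hcon
    exact absurd (hmin x₁ h2) (not_le.2 hx₁.2)
  by_cases hB : B.card ≤ 2 * (B.filter fun y => f x₀ ≤ g y).card
  · refine ⟨A.filter fun x' => f x' ≤ f x₀, filter_subset _ _, B.filter fun y => f x₀ ≤ g y,
      filter_subset _ _, hx₀.2, hB, Or.inl ?_⟩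
    intro x hx y hy
    rw [mem_filter] at hx hy
    exact hx.2.trans hy.2
  · refine ⟨A.filter fun x' => ¬ f x' < f x₀, filter_subset _ _,
      B.filter fun y => ¬ f x₀ ≤ g y, filter_subset _ _, ?_, ?_, Or.inr ?_⟩
    · have := card_filter_add_card_filter_not (s := A) (fun x' => f x' < f x₀)
      omega
    · have := card_filter_add_card_filter_not (s := B) (fun y => f x₀ ≤ g y)
      omega
    · intro x hx y hy
      rw [mem_filter, not_lt] at hx
      rw [mem_filter, not_le] at hy
      exact not_le.2 (hy.2.trans_le hx.2)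

/-- real communication protocols -/
inductive Prot (E : Type) (b : ℕ) (L : Type) : Type
  | out (l : L) : Prot E b L
  | cmp (f g : Vec E b → ℝ) (t u : Prot E b L) : Prot E b L

open Classical in
/-- the output of a protocol -/
noncomputable def Prot.run {L : Type} : Prot E b L → Vec E b → Vec E b → L
  | .out l, _, _ => l
  | .cmp f g t u, x, y => if f x ≤ g y then t.run x y else u.run x y

/-- depth -/
def Prot.depth {L : Type} : Prot E b L → ℕ
  | .out _ => 0
  | .cmp _ _ t u => max t.depth u.depth + 1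

theorem sim {a w : ℕ} {L : Type} (hb : b = 4 * a) (ha : 4 * Fintype.card E + 10 ≤ 2 * a)
    (H : Finset E → (E → ZMod 2) → Prop)
    (ext : ∀ K z S, H K z → (K ∪ S).card ≤ w → ∃ z', (∀ e ∈ K, z' e = z e) ∧ H (K ∪ S) z')
    (viol : L → (E → ZMod 2) → Prop)
    (hout : ∀ K z l, H K z → K.card ≤ w → ∃ z', (∀ e ∈ K, z' e = z e) ∧ ¬ viol l z') :
    ∀ (P : Prot E b L) (p : ℕ) (K : Finset E) (z : E → ZMod 2) (A B : Finset (Vec E b)),
      St K z A B → Dn a 4 K A → Dn a 4 K B → Pot a p K A B → H K z →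
      p + 7 * P.depth ≤ (a - 3) * w → ∃ x ∈ A, ∃ y ∈ B, ¬ viol (P.run x y) (ip x y) := by
  classical
  have ha3 : 0 < a - 3 := by omega
  intro P
  induction P with
  | out l =>
    intro p K z A B hst hDA hDB hp hH hd
    have h1 := hp.card hb hst
    have hK : K.card ≤ w := by
      refine Nat.le_of_mul_le_mul_left (h1.trans ?_) ha3
      omega
    obtain ⟨z', hz', hv⟩ := hout K z l hH hK
    have h2 : (A.filter fun x => ¬ Good K B x).card * 2 ^ (Fintype.card E + 2) ≤ A.card :=
      card_bad hb hDA hDB hst.nB (by norm_num) ha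
    obtain ⟨x, hx, hgx⟩ : ∃ x ∈ A, Good K B x := by
      by_contra hcon
      push Not at hcon
      rw [filter_true_of_mem hcon] at h2
      have h3 := hst.nA.card_pos
      have h4 : 2 ≤ 2 ^ (Fintype.card E + 2) := by
        calc 2 = 2 ^ 1 := rfl
          _ ≤ _ := Nat.pow_le_pow_right (by norm_num) (by omega)
      nlinarith
    have h3 := hgx.count (univ \ K) sdiff_disjoint z'
    have h4 : (B.filter fun y => ∀ e ∈ univ \ K, ip x y e = z' e).Nonempty := by
      rw [nonempty_iff_ne_empty]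
      intro h
      rw [h, card_empty, mul_zero] at h3
      have := hst.nB.card_pos
      omega
    obtain ⟨y, hy⟩ := h4
    rw [mem_filter] at hy
    refine ⟨x, hx, y, hy.1, ?_⟩
    have h5 : ip x y = z' := by
      funext e
      by_cases he : e ∈ K
      · rw [hst.val x hx y hy.1 e he, hz' e he]
      · exact hy.2 e (by simp [he])
    rw [h5]
    exact hv
  | cmp f g t u iht ihu =>
    intro p K z A B hst hDA hDB hp hH hd
    obtain ⟨A₁, hA₁, B₁, hB₁, hcA, hcB, hcase⟩ := halve A B hst.nA f g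
    have nA₁ : A₁.Nonempty := by
      rw [nonempty_iff_ne_empty]
      rintro rfl
      have := hst.nA.card_pos
      rw [card_empty, mul_zero] at hcA
      omega
    have nB₁ : B₁.Nonempty := by
      rw [nonempty_iff_ne_empty]
      rintro rfl
      have := hst.nB.card_pos
      rw [card_empty, mul_zero] at hcB
      omega
    have hDA₁ : Dn a 8 K A₁ := hDA.mono hA₁ (by omega)
    have hDB₁ : Dn a 8 K B₁ := hDB.mono hB₁ (by omega)
    have h2 : (A₁.filter fun x => ¬ Good K B₁ x).card * 2 ^ (Fintype.card E + 2) ≤ A₁.card :=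
      card_bad hb hDA₁ hDB₁ nB₁ (by norm_num) ha
    set A₂ := A₁.filter fun x => Good K B₁ x with hA₂
    have hc2 : A₁.card ≤ 2 * A₂.card := by
      have h3 := card_filter_add_card_filter_not (s := A₁) (fun x => Good K B₁ x)
      have h4 : 2 ≤ 2 ^ (Fintype.card E + 2) := by
        calc 2 = 2 ^ 1 := rfl
          _ ≤ _ := Nat.pow_le_pow_right (by norm_num) (by omega)
      rw [← hA₂] at h3
      nlinarith
    have nA₂ : A₂.Nonempty := by
      rw [nonempty_iff_ne_empty]
      intro h
      rw [h, card_empty, mul_zero] at hc2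
      have := nA₁.card_pos
      omega
    have hst₂ : St K z A₂ B₁ := hst.sub ((filter_subset _ _).trans hA₁) hB₁ nA₂ nB₁
    have hp₂ : Pot a (p + 3) K A₂ B₁ := by
      refine hp.le 3 ?_
      calc A.card * B.card ≤ (2 * (2 * A₂.card)) * (2 * B₁.card) :=
            Nat.mul_le_mul (hcA.trans (Nat.mul_le_mul_left _ hc2)) hcB
        _ = _ := by ring
    obtain ⟨S, A₃, hdis, hA₃, hDA₃, hS0, hsz, hresp⟩ := half_step hb ha hst₂ hDB₁
      (fun x hx => (mem_filter.1 hx).2) hp₂
    -- after the first half step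
    have key : ∃ K' z' A' B', A' ⊆ A₂ ∧ B' ⊆ B₁ ∧ St K' z' A' B' ∧ Dn a 1 K' A' ∧
        (∀ y ∈ B', Good K' A' y) ∧ Pot a (p + 5) K' A' B' ∧ H K' z' := by
      rcases S.eq_empty_or_nonempty with rfl | hne
      · obtain ⟨B₃, hB₃, hst₃, hg₃, h5, _⟩ := hresp z fun _ _ => rfl
        obtain ⟨_, h6⟩ := h5 rfl
        rw [union_empty] at *
        exact ⟨K, z, A₃, B₃, hA₃, hB₃, hst₃, hDA₃, hg₃, h6, hH⟩
      · have hcard : (K ∪ S).card ≤ w := by
          refine Nat.le_of_mul_le_mul_left (hsz.trans ?_) ha3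
          simp only [Prot.depth] at hd
          omega
        obtain ⟨z', hz', hH'⟩ := ext K z S hH hcard
        obtain ⟨B₃, hB₃, hst₃, hg₃, _, h5⟩ := hresp z' hz'
        exact ⟨K ∪ S, z', A₃, B₃, hA₃, hB₃, hst₃, hDA₃, hg₃,
          (h5 hne.ne_empty).mono (by omega), hH'⟩
    obtain ⟨K', z', A', B', hA', hB', hst', hDA', hg', hp', hH'⟩ := key
    have hpw : p + 5 ≤ (a - 3) * w := by
      simp only [Prot.depth] at hd
      omega
    obtain ⟨K'', z'', A'', B'', hA'', hB'', hst'', hDA'', hDB'', hp'', hH''⟩ :=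
      settle hb ha H ext hpw _ K' z' A' B' le_rfl hst' hDA' hg' hp' hH'
    have hAA : A'' ⊆ A₁ := hA''.trans (hA'.trans (filter_subset _ _))
    have hBB : B'' ⊆ B₁ := hB''.trans hB'
    rcases hcase with hc | hc
    · obtain ⟨x, hx, y, hy, hv⟩ := iht (p + 5 + 2) K'' z'' A'' B'' hst'' hDA'' hDB'' hp'' hH''
        (by simp only [Prot.depth] at hd; omega)
      refine ⟨x, hA₁ (hAA hx), y, hB₁ (hBB hy), ?_⟩
      rw [Prot.run, if_pos (hc x (hAA hx) y (hBB hy))]
      exact hv
    · obtain ⟨x, hx, y, hy, hv⟩ := ihu (p + 5 + 2) K'' z'' A'' B'' hst'' hDA'' hDB'' hp'' hH''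
        (by simp only [Prot.depth] at hd; omega)
      refine ⟨x, hA₁ (hAA hx), y, hB₁ (hBB hy), ?_⟩
      rw [Prot.run, if_neg (hc x (hAA hx) y (hBB hy))]
      exact hv

theorem eqon_univ_card (S : Finset E) (γ : Vec E b) :
    ((univ : Finset (Vec E b)).filter fun y => Eqon S y γ).card * 2 ^ (b * S.card) ≤
      2 ^ (b * Fintype.card E) := by
  refine card_fixed S _ ?_
  intro x hx x' hx' e he
  rw [mem_filter] at hx hx'
  rw [hx.2 e he, hx'.2 e he]

/-- **Lifting.** A protocol of small depth errs. -/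
theorem lifting {a w : ℕ} {L : Type} (hb : b = 4 * a) (ha : 4 * Fintype.card E + 10 ≤ 2 * a)
    (H : Finset E → (E → ZMod 2) → Prop) (z₀ : E → ZMod 2) (h0 : H ∅ z₀)
    (ext : ∀ K z S, H K z → (K ∪ S).card ≤ w → ∃ z', (∀ e ∈ K, z' e = z e) ∧ H (K ∪ S) z')
    (viol : L → (E → ZMod 2) → Prop)
    (hout : ∀ K z l, H K z → K.card ≤ w → ∃ z', (∀ e ∈ K, z' e = z e) ∧ ¬ viol l z')
    (P : Prot E b L) (hd : 7 * P.depth ≤ (a - 3) * w) :
    ∃ x y, ¬ viol (P.run x y) (ip x y) := by
  classical
  have hcard : (univ : Finset (Vec E b)).card = 2 ^ (b * Fintype.card E) := by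
    rw [card_univ, Fintype.card_fun, Fintype.card_fun, ZMod.card, Fintype.card_fin, ← pow_mul]
  have hD : Dn a 4 (∅ : Finset E) (univ : Finset (Vec E b)) := by
    intro S _ γ
    have h1 := eqon_univ_card S γ
    rw [hcard]
    have h2 : 2 ^ (3 * a * S.card) ≤ 2 ^ (b * S.card) := by
      refine Nat.pow_le_pow_right (by norm_num) (Nat.mul_le_mul_right _ ?_)
      omega
    calc _ ≤ ((univ : Finset (Vec E b)).filter fun y => Eqon S y γ).card * 2 ^ (b * S.card) :=
          Nat.mul_le_mul_left _ h2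
      _ ≤ 2 ^ (b * Fintype.card E) := h1
      _ ≤ 4 * 2 ^ (b * Fintype.card E) := by omega
  obtain ⟨x, _, y, _, h⟩ := sim hb ha H ext viol hout P 0 ∅ z₀ univ univ
    ⟨fun _ _ _ _ e he => by simp at he, fun _ _ _ _ e he => by simp at he,
      fun _ _ _ _ e he => by simp at he, univ_nonempty, univ_nonempty⟩ hD hD (by
      unfold Pot
      rw [hcard, card_empty, mul_zero, mul_zero, add_zero, ← pow_add, ← pow_add, pow_zero,
        one_mul, add_zero]
      refine Nat.pow_le_pow_right (by norm_num) ?_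
      rw [hb]
      apply le_of_eq
      ring) h0 (by omega)
  exact ⟨x, y, h⟩

end Pool.Agent.W967.RC
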