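import Pool.Agent.W967.RC.Sys

set_option autoImplicit false
set_option linter.unusedSectionVars false

/-! Choice of the parameters. -/

namespace Pool.Agent.W967.RC

open Finset

theorem num_arith {l k t x w d : ℕ} (A1 : 16 * (l + 1) ≤ 17 * l) (A2 : 8 * k ≤ 17 * t)
    (A3 : 399 * l ≤ 1600 * (t * x)) (A4 : 19 * (t * t) ≤ 128 * w) (A5 : x * w < 7 * d) :
    (l + 1) * k ≤ 500 * d := by
  have h1 : (16 * (l + 1)) * (8 * k) ≤ (17 * l) * (17 * t) := Nat.mul_le_mul A1 A2
  have h2 : (399 * l) * t ≤ (1600 * (t * x)) * t := Nat.mul_le_mul_right _ A3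
  have h3 : (19 * (t * t)) * x ≤ (128 * w) * x := Nat.mul_le_mul_right _ A4
  have h4 : (t * x) * t = (t * t) * x := by ring
  have h5 : 128 * ((l + 1) * k) ≤ 289 * (l * t) := by
    calc 128 * ((l + 1) * k) = (16 * (l + 1)) * (8 * k) := by ring
      _ ≤ (17 * l) * (17 * t) := h1
      _ = _ := by ring
  have h6 : 399 * (l * t) ≤ 1600 * ((t * t) * x) := by
    calc 399 * (l * t) = (399 * l) * t := by ring
      _ ≤ (1600 * (t * x)) * t := h2
      _ = _ := by ring
  have h7 : 19 * ((t * t) * x) ≤ 128 * (x * w) := by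
    calc 19 * ((t * t) * x) = (19 * (t * t)) * x := by ring
      _ ≤ (128 * w) * x := h3
      _ = _ := by ring
  omega

theorem num_main {k n : ℕ} (hk : 16 ≤ k) (hn : 2 ^ k ^ 4 ≤ n) :
    ∃ t r a w : ℕ, t = k / 2 ∧ 0 < t ∧ k = 2 * t + r ∧ 2 * t * 2 ^ (4 * a * t) + r ≤ n ∧
      2 * t ^ 2 + 5 ≤ a ∧ 4 * w < (t - 1) * (t - 2) ∧
      ∀ d, (a - 3) * w < 7 * d → n ^ k ≤ 2 ^ (500 * d) := by
  set t := k / 2 with ht
  set l := Nat.log 2 n with hl
  have hn0 : n ≠ 0 := by
    have : 0 < 2 ^ k ^ 4 := by positivity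
    omega
  have hl1 : k ^ 4 ≤ l := Nat.le_log_of_pow_le (by norm_num) hn
  have hl2 : 2 ^ l ≤ n := Nat.pow_log_le_self 2 hn0
  have hl3 : n < 2 ^ (l + 1) := Nat.lt_pow_succ_log_self (by norm_num) n
  have ht8 : 8 ≤ t := by omega
  have hk2 : k = 2 * t + k % 2 := by omega
  have hr : k % 2 < 2 := Nat.mod_lt _ (by norm_num)
  have hkt : k ≤ 2 * t + 1 := by omega
  have hk3 : 2 * t ≤ k := by omega
  have hl4 : 8192 * t ≤ l := by
    calc 8192 * t = 16 * (8 * 8 * 8) * t := by ring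
      _ ≤ 16 * (t * t * t) * t := by
          refine Nat.mul_le_mul_right _ (Nat.mul_le_mul_left _ ?_)
          exact Nat.mul_le_mul (Nat.mul_le_mul ht8 ht8) ht8
      _ = (2 * t) ^ 4 := by ring
      _ ≤ k ^ 4 := Nat.pow_le_pow_left hk3 4
      _ ≤ l := hl1
  set a := (l - k) / (4 * t) with ha
  have ha1 : a * (4 * t) ≤ l - k := Nat.div_mul_le_self _ _
  have ha2 : l - k < 4 * t * (a + 1) := Nat.lt_mul_div_succ _ (by omega)
  set w := ((t - 1) * (t - 2) - 1) / 4 with hw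
  have hw1 : (t - 1) * (t - 2) - 1 < 4 * (w + 1) := Nat.lt_mul_div_succ _ (by norm_num)
  have hw2 : w * 4 ≤ (t - 1) * (t - 2) - 1 := Nat.div_mul_le_self _ _
  have htt : (t - 1) * (t - 2) + 3 * t = t * t + 2 := by
    obtain ⟨s, hs⟩ : ∃ s, t = s + 2 := ⟨t - 2, by omega⟩
    rw [hs]
    simp only [Nat.add_sub_cancel]
    have : s + 2 - 1 = s + 1 := by omega
    rw [this]
    ring
  have htt2 : 8 * t ≤ t * t := Nat.mul_le_mul_right _ ht8
  -- `a` is large
  have haL : 2 * t ^ 2 + 5 ≤ a := by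
    have h1 : 16 * (t * t * t * t) ≤ l := by
      calc 16 * (t * t * t * t) = (2 * t) ^ 4 := by ring
        _ ≤ k ^ 4 := Nat.pow_le_pow_left hk3 4
        _ ≤ l := hl1
    by_contra hcon
    rw [not_le] at hcon
    have h2 : a + 1 ≤ 2 * (t * t) + 5 := by
      have : t ^ 2 = t * t := sq t
      omega
    have h3 : l - k < 4 * t * (2 * (t * t) + 5) := lt_of_lt_of_le ha2 (Nat.mul_le_mul_left _ h2)
    have h4 : 4 * t * (2 * (t * t) + 5) = 8 * (t * t * t) + 20 * t := by ring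
    have h5 : 8 * (t * t * t) ≤ t * t * t * t := by
      calc 8 * (t * t * t) ≤ t * (t * t * t) := Nat.mul_le_mul_right _ ht8
        _ = _ := by ring
    have h6 : 8 * 8 * 8 * t ≤ t * t * t * t :=
      Nat.mul_le_mul_right _ (Nat.mul_le_mul (Nat.mul_le_mul ht8 ht8) ht8)
    omega
  refine ⟨t, k % 2, a, w, rfl, by omega, hk2, ?_, haL, by omega, ?_⟩
  · have h1 : 2 * t * 2 ^ (4 * a * t) + k % 2 ≤ k * 2 ^ (4 * a * t) + 2 ^ (4 * a * t) := by
      have h2 : 2 * t * 2 ^ (4 * a * t) ≤ k * 2 ^ (4 * a * t) := Nat.mul_le_mul_right _ hk3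
      have h3 : 1 ≤ 2 ^ (4 * a * t) := Nat.one_le_two_pow
      omega
    have h2 : k + 1 ≤ 2 ^ k := Nat.lt_two_pow_self
    calc 2 * t * 2 ^ (4 * a * t) + k % 2 ≤ k * 2 ^ (4 * a * t) + 2 ^ (4 * a * t) := h1
      _ = (k + 1) * 2 ^ (4 * a * t) := by ring
      _ ≤ 2 ^ k * 2 ^ (4 * a * t) := Nat.mul_le_mul_right _ h2
      _ = 2 ^ (k + 4 * a * t) := by rw [pow_add]
      _ ≤ 2 ^ l := by
          refine Nat.pow_le_pow_right (by norm_num) ?_
          have : a * (4 * t) = 4 * a * t := by ring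
          omega
      _ ≤ n := hl2
  · intro d hd
    have A5 := hd
    obtain ⟨x, hx⟩ : ∃ x, a = x + 3 := ⟨a - 3, by omega⟩
    rw [hx] at A5 ha2
    simp only [Nat.add_sub_cancel] at A5
    have A3 : 399 * l ≤ 1600 * (t * x) := by
      have h1 : 4 * t * (x + 3 + 1) = 4 * (t * x) + 16 * t := by ring
      rw [h1] at ha2
      omega
    have A4 : 19 * (t * t) ≤ 128 * w := by
      omega
    have h := num_arith (d := d) (by omega) (by omega : 8 * k ≤ 17 * t) A3 A4 A5
    calc n ^ k ≤ (2 ^ (l + 1)) ^ k := Nat.pow_le_pow_left hl3.le k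
      _ = 2 ^ ((l + 1) * k) := by rw [← pow_mul]
      _ ≤ _ := Nat.pow_le_pow_right (by norm_num) h

/-- **Main theorem.** -/
theorem main {k n : ℕ} (hk : 16 ≤ k) (hn : 2 ^ k ^ 4 ≤ n) :
    ∃ G : SimpleGraph (Fin n), G.CliqueFree k ∧ ∃ A : Finset (Fin k), A.card = k / 2 ∧
      (∀ T : Tree k n, T.Split A → T.Solves G → n ^ k ≤ 2 ^ (500 * T.depth)) ∧
      (∀ (r L : ℕ) (P : ℕ → (Fin k → Fin n) → Prop), Seq G A r L P →
        n ^ k ≤ (2 * L) ^ (500 * r)) ∧
      (∀ (r w : ℕ) (P : (Fin k → Fin n) → Prop), Der G A r ∅ P w → (∀ c, ¬ P c) →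
        n ^ k ≤ (2 * w) ^ (1000 * r)) := by
  obtain ⟨t, r, a, w, ht, ht0, hkt, hcard, ha, hw, hnum⟩ := num_main hk hn
  obtain ⟨G, hG, A, hA, hlow⟩ := graph_lower (k := k) (n := n) ht0 hkt hcard ha hw
  have hT : ∀ T : Tree k n, T.Split A → T.Solves G → n ^ k ≤ 2 ^ (500 * T.depth) :=
    fun T h1 h2 => hnum _ (hlow T h1 h2)
  have hn0 : 0 < n := by
    have : 0 < 2 ^ k ^ 4 := by positivity
    omega
  have c₀ : Fin k → Fin n := fun _ => ⟨0, hn0⟩
  let i₀ : Fin k := ⟨0, by omega⟩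
  refine ⟨G, hG, A, by rw [hA, ht], hT, ?_, ?_⟩
  · intro r L P hP
    have hL : 0 < L := by
      rcases Nat.eq_zero_or_pos L with h | h
      · subst h
        exact absurd (hP.start c₀) (hP.stop c₀)
      · exact h
    obtain ⟨T, h1, h2, h3⟩ := hP.search i₀ i₀ (Nat.clog 2 L) 0 L (Nat.zero_le _) le_rfl
      (by simpa using Nat.le_pow_clog (by norm_num) L)
    have h4 := hT T h1 fun c => h3 c (hP.start c) (hP.stop c)
    have h5 : 2 ^ Nat.clog 2 L ≤ 2 * L := by
      rcases Nat.lt_or_ge 1 L with h | h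
      · have := Nat.pow_pred_clog_lt_self (b := 2) (by norm_num) h
        have h6 : Nat.clog 2 L = (Nat.clog 2 L).pred + 1 := by
          have := Nat.clog_pos (b := 2) (by norm_num) h
          simp only [Nat.pred_eq_sub_one]
          omega
        rw [h6, pow_succ]
        omega
      · have : L = 1 := by omega
        subst this
        simp
    calc n ^ k ≤ 2 ^ (500 * T.depth) := h4
      _ ≤ 2 ^ (500 * (r * Nat.clog 2 L)) :=
          Nat.pow_le_pow_right (by norm_num) (Nat.mul_le_mul_left _ h2)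
      _ = (2 ^ Nat.clog 2 L) ^ (500 * r) := by rw [← pow_mul]; congr 1; ring
      _ ≤ _ := Nat.pow_le_pow_left h5 _
  · intro r w P hP hc
    have hw : 0 < w := by
      rcases Nat.eq_zero_or_pos w with h | h
      · exact absurd (hP.zero h c₀ (fun Q hQ => absurd hQ (Set.notMem_empty _))) (hc c₀)
      · exact h
    have h5 : 2 ^ Nat.clog 2 w ≤ 2 * w := by
      rcases Nat.lt_or_ge 1 w with h | h
      · have := Nat.pow_pred_clog_lt_self (b := 2) (by norm_num) h
        have h6 : Nat.clog 2 w = (Nat.clog 2 w).pred + 1 := by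
          have := Nat.clog_pos (b := 2) (by norm_num) h
          simp only [Nat.pred_eq_sub_one]
          omega
        rw [h6, pow_succ]
        omega
      · have : w = 1 := by omega
        subst this
        simp
    obtain ⟨T, h1, h2, h3⟩ := Der.search i₀ i₀ (2 * Nat.clog 2 w) ∅ P w hP (by
      calc w * 2 ^ (2 * Nat.clog 2 w) ≤ 2 ^ Nat.clog 2 w * 2 ^ (2 * Nat.clog 2 w) :=
            Nat.mul_le_mul_right _ (Nat.le_pow_clog (by norm_num) w)
        _ = 8 ^ Nat.clog 2 w := by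
            rw [pow_mul, ← mul_pow]
            norm_num
        _ ≤ 9 ^ Nat.clog 2 w := Nat.pow_le_pow_left (by norm_num) _
        _ = _ := by rw [pow_mul]; norm_num)
    have h4 := hT T h1 fun c => h3 c (fun Q hQ => absurd hQ (Set.notMem_empty _)) (hc c)
    calc n ^ k ≤ 2 ^ (500 * T.depth) := h4
      _ ≤ 2 ^ (500 * (r * (2 * Nat.clog 2 w))) :=
          Nat.pow_le_pow_right (by norm_num) (Nat.mul_le_mul_left _ h2)
      _ = (2 ^ Nat.clog 2 w) ^ (1000 * r) := by rw [← pow_mul]; congr 1; ring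
      _ ≤ _ := Nat.pow_le_pow_left h5 _

/-- linear inequalities -/
theorem cmp_linear {k n : ℕ} (A : Finset (Fin k)) (φ : Fin k → Fin n → ℝ) :
    Cmp A 1 fun c => 0 ≤ ∑ i, φ i (c i) := by
  classical
  have hsum : ∀ c : Fin k → Fin n, ∑ i, φ i (c i) = ∑ i ∈ A, φ i (c i) + ∑ i ∈ Aᶜ, φ i (c i) :=
    fun c => (sum_add_sum_compl A _).symm
  refine ⟨fun _ c => -∑ i ∈ A, φ i (c i), fun _ c => ∑ i ∈ Aᶜ, φ i (c i), fun _ => ⟨?_, ?_⟩, ?_⟩
  · intro c c' h
    simp only
    congr 1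
    exact sum_congr rfl fun i hi => by rw [h i hi]
  · intro c c' h
    exact sum_congr rfl fun i hi => by rw [h i hi]
  · intro c c' h hc
    have h0 := h 0
    simp only at h0
    rw [hsum c] at hc
    rw [hsum c']
    have : -∑ i ∈ A, φ i (c i) ≤ ∑ i ∈ Aᶜ, φ i (c i) := by linarith
    have := h0.1 this
    linarith

/-- exhaustive search -/
theorem upper {k n : ℕ} (G : SimpleGraph (Fin n)) (hG : G.CliqueFree k) :
    ∃ φ : ℕ → Fin k → Fin n → ℝ, ∀ A : Finset (Fin k),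
      Seq G A 1 (n ^ k) fun s c => 0 ≤ ∑ i, φ s i (c i) := by
  classical
  -- `k` is positive
  have hk : 0 < k := by
    rcases Nat.eq_zero_or_pos k with h | h
    · subst h
      exact absurd hG (by simp)
    · exact h
  let i₀ : Fin k := ⟨0, hk⟩
  let φ : ℕ → Fin k → Fin n → ℝ := fun s i v =>
    (v : ℝ) * (n : ℝ) ^ (i : ℕ) - (if i = i₀ then (s : ℝ) else 0)
  have hφ : ∀ s (c : Fin k → Fin n), ∑ i, φ s i (c i) =
      ((finFunctionFinEquiv c : Fin (n ^ k)) : ℕ) - (s : ℝ) := by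
    intro s c
    simp only [φ, sum_sub_distrib, finFunctionFinEquiv_apply]
    rw [sum_ite_eq' univ i₀, if_pos (mem_univ _)]
    push_cast
    rfl
  refine ⟨φ, fun A => ⟨fun s => cmp_linear A _, ?_, ?_, ?_⟩⟩
  · intro c
    rw [hφ, Nat.cast_zero, sub_zero]
    exact Nat.cast_nonneg _
  · intro c h
    rw [hφ] at h
    have := (finFunctionFinEquiv c : Fin (n ^ k)).2
    have h2 : ((n ^ k : ℕ) : ℝ) ≤ ((finFunctionFinEquiv c : Fin (n ^ k)) : ℕ) := by linarith
    have h3 : n ^ k ≤ ((finFunctionFinEquiv c : Fin (n ^ k)) : ℕ) := by exact_mod_cast h2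
    omega
  · intro s hs
    let c₀ : Fin k → Fin n := finFunctionFinEquiv.symm ⟨s, hs⟩
    have hex : ∃ i j : Fin k, i ≠ j ∧ ¬ G.Adj (c₀ i) (c₀ j) := by
      by_contra hcon
      push Not at hcon
      have hinj : Function.Injective c₀ := by
        intro i j hij
        by_contra hne
        have := hcon i j hne
        rw [hij] at this
        exact G.loopless.irrefl _ this
      refine hG (univ.image c₀) ⟨?_, ?_⟩
      · intro p hp q hq hpq
        rw [mem_coe, mem_image] at hp hq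
        obtain ⟨i, _, rfl⟩ := hp
        obtain ⟨j, _, rfl⟩ := hq
        exact hcon i j fun h => hpq (by rw [h])
      · rw [card_image_of_injective _ hinj, card_univ, Fintype.card_fin]
    obtain ⟨i, j, hij, hadj⟩ := hex
    refine ⟨i, j, hij, fun c h hc => ?_⟩
    rw [hφ] at h ⊢
    have h2 : s ≤ ((finFunctionFinEquiv c : Fin (n ^ k)) : ℕ) := by
      have : (s : ℝ) ≤ ((finFunctionFinEquiv c : Fin (n ^ k)) : ℕ) := by linarith
      exact_mod_cast this
    have h3 : s ≠ ((finFunctionFinEquiv c : Fin (n ^ k)) : ℕ) := by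
      intro h
      apply hadj
      have : c₀ = c := by
        simp only [c₀]
        rw [Equiv.symm_apply_eq]
        exact Fin.ext h
      rw [this]
      exact hc
    have h4 : s + 1 ≤ ((finFunctionFinEquiv c : Fin (n ^ k)) : ℕ) := by omega
    have h5 : ((s + 1 : ℕ) : ℝ) ≤ ((finFunctionFinEquiv c : Fin (n ^ k)) : ℕ) := by
      exact_mod_cast h4
    push_cast at h5 ⊢
    linarith

end Pool.Agent.W967.RC
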