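import Pool.Agent.W967.RC.Dense

set_option autoImplicit false
set_option linter.unusedSectionVars false

/-! One step of the simulation. -/

namespace Pool.Agent.W967.RC

open Finset

variable {E : Type} [Fintype E] [DecidableEq E] {b : ℕ}

/-- fix the coordinates at which a set is not dense -/
theorem restore (a : ℕ) (K : Finset E) (A : Finset (Vec E b)) (hA : A.Nonempty) :
    ∃ (S : Finset E) (A' : Finset (Vec E b)), Disjoint S K ∧ A' ⊆ A ∧ A'.Nonempty ∧
      (∀ x ∈ A', ∀ x' ∈ A', Eqon S x x') ∧ A.card ≤ 2 ^ (3 * a * S.card) * A'.card ∧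
      Dn a 1 (K ∪ S) A' ∧ (S = ∅ → A' = A) := by
  classical
  let F : Finset (Finset E) := univ.filter fun S => Disjoint S K ∧
    ∃ γ : Vec E b, A.card ≤ 2 ^ (3 * a * S.card) * (A.filter fun x => Eqon S x γ).card
  have h0 : ∅ ∈ F := by
    simp only [F, mem_filter, mem_univ, true_and]
    refine ⟨disjoint_empty_left _, 0, ?_⟩
    have : (A.filter fun x => Eqon (∅ : Finset E) x 0) = A := by
      apply filter_true_of_mem
      intro x _ e he
      simp at he
    rw [this]
    simp
  obtain ⟨S, hS, hmax⟩ := exists_max_image F (fun S => S.card) ⟨∅, h0⟩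
  simp only [F, mem_filter, mem_univ, true_and] at hS
  obtain ⟨hdis, γ, hγ⟩ := hS
  refine ⟨S, A.filter fun x => Eqon S x γ, hdis, filter_subset _ _, ?_, ?_, hγ, ?_, ?_⟩
  · rw [nonempty_iff_ne_empty]
    intro h
    rw [h, card_empty, mul_zero] at hγ
    have := hA.card_pos
    omega
  · intro x hx x' hx' e he
    rw [mem_filter] at hx hx'
    rw [hx.2 e he, hx'.2 e he]
  · intro T hT δ
    rw [disjoint_union_right] at hT
    rcases T.eq_empty_or_nonempty with rfl | hne
    · simp only [card_empty, mul_zero, pow_zero, mul_one, one_mul]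
      exact card_filter_le _ _
    · by_contra hcon
      rw [not_le, one_mul] at hcon
      have h1 : S ∪ T ∈ F := by
        simp only [F, mem_filter, mem_univ, true_and]
        refine ⟨disjoint_union_left.2 ⟨hdis, hT.1⟩, fun e => if e ∈ S then γ e else δ e, ?_⟩
        have h2 : (A.filter fun x => Eqon (S ∪ T) x fun e => if e ∈ S then γ e else δ e) =
            ((A.filter fun x => Eqon S x γ).filter fun x => Eqon T x δ) := by
          ext x
          simp only [mem_filter, and_assoc]
          refine and_congr_right fun _ => ?_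
          constructor
          · intro h
            refine ⟨fun e he => ?_, fun e he => ?_⟩
            · have := h e (mem_union_left _ he)
              simpa only [if_pos he] using this
            · have h3 := h e (mem_union_right _ he)
              simpa only [if_neg (disjoint_left.1 hT.2 he)] using h3
          · rintro ⟨h3, h4⟩ e he
            rcases mem_union.1 he with h | h
            · simpa only [if_pos h] using h3 e h
            · simpa only [if_neg (disjoint_left.1 hT.2 h)] using h4 e h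
        rw [h2]
        have h3 : (S ∪ T).card = S.card + T.card := card_union_of_disjoint hT.2.symm
        rw [h3]
        calc A.card ≤ 2 ^ (3 * a * S.card) * (A.filter fun x => Eqon S x γ).card := hγ
          _ ≤ 2 ^ (3 * a * S.card) * (((A.filter fun x => Eqon S x γ).filter
                fun x => Eqon T x δ).card * 2 ^ (3 * a * T.card)) :=
              Nat.mul_le_mul_left _ hcon.le
          _ = _ := by rw [mul_add (3 * a), pow_add]; ring
      have h2 := hmax _ h1
      have h3 : (S ∪ T).card = S.card + T.card := card_union_of_disjoint hT.2.symm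
      have h4 := hne.card_pos
      omega
  · intro h
    subst h
    apply filter_true_of_mem
    intro x _ e he
    simp at he

/-- the number of vectors with given coordinates in `K` -/
theorem card_fixed (K : Finset E) (A : Finset (Vec E b)) (h : ∀ x ∈ A, ∀ x' ∈ A, Eqon K x x') :
    A.card * 2 ^ (b * K.card) ≤ 2 ^ (b * Fintype.card E) := by
  classical
  have h1 : A.card ≤ (supp (univ \ K) : Finset (Vec E b)).card := by
    refine card_le_card_of_injOn (fun x => mask (univ \ K) x) (fun x _ => mask_mem _ _) ?_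
    intro x hx y hy hxy
    funext e
    by_cases he : e ∈ K
    · exact h x hx y hy e he
    · have := congrFun hxy e
      simpa [mask, he] using this
  rw [card_supp, ← pow_mul] at h1
  have h2 : (univ \ K).card + K.card = Fintype.card E := by
    have := card_sdiff_add_card_eq_card (subset_univ K)
    rwa [card_univ] at this
  calc A.card * 2 ^ (b * K.card) ≤ 2 ^ (b * (univ \ K).card) * 2 ^ (b * K.card) :=
        Nat.mul_le_mul_right _ h1
    _ = _ := by rw [← pow_add, ← mul_add, h2]

/-- after one side is restored, the other side can be restricted to any values of the gadgets -/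
theorem respond {a : ℕ} (hb : b = 4 * a) (ha : 4 * Fintype.card E + 10 ≤ 2 * a) {K S : Finset E}
    (hS : Disjoint S K) {A B : Finset (Vec E b)} (hA : A.Nonempty)
    (hfix : ∀ x ∈ A, ∀ x' ∈ A, Eqon S x x') (hDA : Dn a 1 (K ∪ S) A) (hDB : Dn a 8 K B)
    (hB : B.Nonempty) (hg : ∀ x ∈ A, Good K B x) (z : E → ZMod 2) :
    ∃ B' : Finset (Vec E b), B' ⊆ B ∧ B'.Nonempty ∧ (∀ y ∈ B', ∀ y' ∈ B', Eqon S y y') ∧
      (∀ x ∈ A, ∀ y ∈ B', ∀ e ∈ S, ip x y e = z e) ∧ (∀ y ∈ B', Good (K ∪ S) A y) ∧
      B.card ≤ 2 ^ (S.card + 2 + 4 * a * S.card) * B'.card := by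
  classical
  obtain ⟨x₀, hx₀⟩ := hA
  set m := Fintype.card E with hm
  set Bz := B.filter fun y => ∀ e ∈ S, ip x₀ y e = z e with hBz
  have h1 : B.card ≤ 2 ^ (S.card + 1) * Bz.card := (hg x₀ hx₀).count S hS z
  have h2 : (B.filter fun y => ¬ Good (K ∪ S) A y).card * 2 ^ (m + 2) ≤ B.card :=
    card_bad hb (hDB.monoK subset_union_left) hDA ⟨x₀, hx₀⟩ (by norm_num) ha
  set Bg := Bz.filter fun y => Good (K ∪ S) A y with hBg
  have h3 : Bz.card ≤ 2 * Bg.card := by
    have h4 : Bz.card = Bg.card + (Bz.filter fun y => ¬ Good (K ∪ S) A y).card := by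
      rw [hBg, card_filter_add_card_filter_not]
    have h5 : (Bz.filter fun y => ¬ Good (K ∪ S) A y).card ≤
        (B.filter fun y => ¬ Good (K ∪ S) A y).card :=
      card_le_card (filter_subset_filter _ (filter_subset _ _))
    have h6 : 2 ^ (S.card + 1) ≤ 2 ^ (m + 1) :=
      Nat.pow_le_pow_right (by norm_num) (by have := card_le_univ S; omega)
    have h7 : (B.filter fun y => ¬ Good (K ∪ S) A y).card * 2 ^ (m + 2) ≤ 2 ^ (m + 1) * Bz.card :=
      (h2.trans h1).trans (Nat.mul_le_mul_right _ h6)
    have h8 : 2 * (B.filter fun y => ¬ Good (K ∪ S) A y).card ≤ Bz.card := by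
      have hp : 0 < 2 ^ (m + 1) := by positivity
      refine Nat.le_of_mul_le_mul_left ?_ hp
      calc _ = (B.filter fun y => ¬ Good (K ∪ S) A y).card * 2 ^ (m + 2) := by
            rw [pow_succ 2 (m + 1)]; ring
        _ ≤ _ := h7
    omega
  -- pigeonhole
  have h9 : Bg.card = ∑ γ ∈ supp S, (Bg.filter fun y => mask S y = γ).card :=
    card_eq_sum_card_fiberwise fun y _ => mask_mem S y
  obtain ⟨γ, hγ, hγ2⟩ : ∃ γ ∈ (supp S : Finset (Vec E b)),
      Bg.card ≤ 2 ^ (4 * a * S.card) * (Bg.filter fun y => mask S y = γ).card := by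
    by_contra hcon
    push Not at hcon
    have hq : (supp S : Finset (Vec E b)).card = 2 ^ (4 * a * S.card) := by
      rw [card_supp, ← pow_mul]
      congr 2
    have hne : (supp S : Finset (Vec E b)).Nonempty := by
      rw [← card_pos, hq]; positivity
    have h10 : ∑ γ ∈ (supp S : Finset (Vec E b)),
        2 ^ (4 * a * S.card) * (Bg.filter fun y => mask S y = γ).card <
        ∑ γ ∈ (supp S : Finset (Vec E b)), Bg.card := sum_lt_sum_of_nonempty hne hcon
    rw [← mul_sum, ← h9, sum_const, smul_eq_mul, hq] at h10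
    exact lt_irrefl _ h10
  have hcard : B.card ≤ 2 ^ (S.card + 2 + 4 * a * S.card) *
      (Bg.filter fun y => mask S y = γ).card := by
    calc B.card ≤ 2 ^ (S.card + 1) * Bz.card := h1
      _ ≤ 2 ^ (S.card + 1) * (2 * Bg.card) := Nat.mul_le_mul_left _ h3
      _ ≤ 2 ^ (S.card + 1) * (2 * (2 ^ (4 * a * S.card) *
            (Bg.filter fun y => mask S y = γ).card)) :=
          Nat.mul_le_mul_left _ (Nat.mul_le_mul_left _ hγ2)
      _ = _ := by rw [pow_add, pow_add, pow_add]; ring
  refine ⟨Bg.filter fun y => mask S y = γ, ?_, ?_, ?_, ?_, ?_, hcard⟩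
  · exact (filter_subset _ _).trans ((filter_subset _ _).trans (filter_subset _ _))
  · rw [nonempty_iff_ne_empty]
    intro h
    rw [h, card_empty, mul_zero] at hcard
    have := hB.card_pos
    omega
  · intro y hy y' hy' e he
    rw [mem_filter] at hy hy'
    have h10 := congrFun hy.2 e
    have h11 := congrFun hy'.2 e
    simp only [mask, if_pos he] at h10 h11
    rw [h10, h11]
  · intro x hx y hy e he
    rw [mem_filter, hBg, mem_filter, hBz, mem_filter] at hy
    rw [← hy.1.1.2 e he]
    unfold ip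
    rw [hfix x hx x₀ hx₀ e he]
  · intro y hy
    rw [mem_filter, hBg, mem_filter] at hy
    exact hy.1.2

/-- state of the simulation -/
structure St (K : Finset E) (z : E → ZMod 2) (A B : Finset (Vec E b)) : Prop where
  fA : ∀ x ∈ A, ∀ x' ∈ A, Eqon K x x'
  fB : ∀ y ∈ B, ∀ y' ∈ B, Eqon K y y'
  val : ∀ x ∈ A, ∀ y ∈ B, ∀ e ∈ K, ip x y e = z e
  nA : A.Nonempty
  nB : B.Nonempty

theorem St.swap {K : Finset E} {z : E → ZMod 2} {A B : Finset (Vec E b)} (h : St K z A B) :
    St K z B A :=
  ⟨h.fB, h.fA, fun x hx y hy e he => by rw [ip_comm]; exact h.val y hy x hx e he, h.nB, h.nA⟩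

theorem St.sub {K : Finset E} {z : E → ZMod 2} {A B A' B' : Finset (Vec E b)} (h : St K z A B)
    (hA : A' ⊆ A) (hB : B' ⊆ B) (nA : A'.Nonempty) (nB : B'.Nonempty) : St K z A' B' :=
  ⟨fun x hx y hy => h.fA x (hA hx) y (hA hy), fun x hx y hy => h.fB x (hB hx) y (hB hy),
    fun x hx y hy => h.val x (hA hx) y (hB hy), nA, nB⟩

/-- potential: the rectangle has lost at most `p` bits in total -/
def Pot (a p : ℕ) (K : Finset E) (A B : Finset (Vec E b)) : Prop :=
  2 ^ (8 * a * Fintype.card E) * 2 ^ ((a - 3) * K.card) ≤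
    2 ^ (p + 8 * a * K.card) * (A.card * B.card)

theorem Pot.swap {a p : ℕ} {K : Finset E} {A B : Finset (Vec E b)} (h : Pot a p K A B) :
    Pot a p K B A := by
  unfold Pot at *
  rwa [mul_comm B.card]

theorem Pot.le {a p : ℕ} {K : Finset E} {A B A' B' : Finset (Vec E b)} (h : Pot a p K A B)
    (c : ℕ) (hc : A.card * B.card ≤ 2 ^ c * (A'.card * B'.card)) : Pot a (p + c) K A' B' := by
  unfold Pot at *
  refine h.trans ((Nat.mul_le_mul_left _ hc).trans (le_of_eq ?_))
  rw [← mul_assoc, ← pow_add]
  congr 2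
  ring

theorem half_step {a p : ℕ} (hb : b = 4 * a) (ha : 4 * Fintype.card E + 10 ≤ 2 * a)
    {K : Finset E} {z : E → ZMod 2} {A B : Finset (Vec E b)} (hst : St K z A B)
    (hDB : Dn a 8 K B) (hg : ∀ x ∈ A, Good K B x) (hp : Pot a p K A B) :
    ∃ (S : Finset E) (A' : Finset (Vec E b)), Disjoint S K ∧ A' ⊆ A ∧
      Dn a 1 (K ∪ S) A' ∧ (S = ∅ → A' = A) ∧ (a - 3) * (K ∪ S).card ≤ p ∧
      ∀ z' : E → ZMod 2, (∀ e ∈ K, z' e = z e) → ∃ B' : Finset (Vec E b), B' ⊆ B ∧
        St (K ∪ S) z' A' B' ∧ (∀ y ∈ B', Good (K ∪ S) A' y) ∧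
        (S = ∅ → B.card ≤ 4 * B'.card ∧ Pot a (p + 2) K A' B') ∧
        (S ≠ ∅ → Pot a p (K ∪ S) A' B') := by
  classical
  obtain ⟨S, A', hdis, hsub, hne, hfix, hcard, hDA, hS0⟩ := restore a K A hst.nA
  have hcu : (K ∪ S).card = K.card + S.card := card_union_of_disjoint hdis.symm
  have ha3 : 3 ≤ a := by omega
  have hfixA : ∀ x ∈ A', ∀ x' ∈ A', Eqon (K ∪ S) x x' := by
    intro x hx x' hx' e he
    rcases mem_union.1 he with h | h
    · exact hst.fA x (hsub hx) x' (hsub hx') e h
    · exact hfix x hx x' hx' e h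
  refine ⟨S, A', hdis, hsub, hDA, hS0, ?_, ?_⟩
  · -- size of the new set of coordinates
    have h1 := card_fixed (K ∪ S) A' hfixA
    have h2 := card_fixed K B hst.fB
    have hb1 : b * (K ∪ S).card = 4 * a * K.card + 4 * a * S.card := by rw [hcu, hb]; ring
    have hb2 : b * K.card = 4 * a * K.card := by rw [hb]
    have hb3 : b * Fintype.card E = 4 * a * Fintype.card E := by rw [hb]
    rw [hb1, hb3] at h1
    rw [hb2, hb3] at h2
    unfold Pot at hp
    have h3 : 2 ^ (8 * a * Fintype.card E) * 2 ^ ((a - 3) * K.card + 4 * a * S.card) ≤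
        2 ^ (8 * a * Fintype.card E) * 2 ^ (p + 3 * a * S.card) := by
      calc 2 ^ (8 * a * Fintype.card E) * 2 ^ ((a - 3) * K.card + 4 * a * S.card)
          = (2 ^ (8 * a * Fintype.card E) * 2 ^ ((a - 3) * K.card)) * 2 ^ (4 * a * S.card) := by
            rw [pow_add]; ring
        _ ≤ (2 ^ (p + 8 * a * K.card) * (A.card * B.card)) * 2 ^ (4 * a * S.card) :=
            Nat.mul_le_mul_right _ hp
        _ ≤ (2 ^ (p + 8 * a * K.card) * ((2 ^ (3 * a * S.card) * A'.card) * B.card)) *
              2 ^ (4 * a * S.card) :=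
            Nat.mul_le_mul_right _ (Nat.mul_le_mul_left _ (Nat.mul_le_mul_right _ hcard))
        _ = 2 ^ (p + 3 * a * S.card) * ((A'.card * 2 ^ (4 * a * K.card + 4 * a * S.card)) *
              (B.card * 2 ^ (4 * a * K.card))) := by
            have : (2 : ℕ) ^ (p + 8 * a * K.card) =
                2 ^ p * 2 ^ (4 * a * K.card) * 2 ^ (4 * a * K.card) := by
              rw [← pow_add, ← pow_add]; congr 1; ring
            rw [this, pow_add, pow_add]
            ring
        _ ≤ 2 ^ (p + 3 * a * S.card) * (2 ^ (4 * a * Fintype.card E) *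
              2 ^ (4 * a * Fintype.card E)) :=
            Nat.mul_le_mul_left _ (Nat.mul_le_mul h1 h2)
        _ = _ := by
            rw [← pow_add, mul_comm]
            congr 2
            ring
    have h4 := Nat.le_of_mul_le_mul_left h3 (by positivity)
    have h5 := (Nat.pow_le_pow_iff_right (by norm_num : 1 < 2)).1 h4
    rw [hcu]
    obtain ⟨a', rfl⟩ : ∃ a', a = a' + 3 := ⟨a - 3, by omega⟩
    simp only [Nat.add_sub_cancel] at h5 ⊢
    nlinarith
  · intro z' hz'
    obtain ⟨B', hB1, hB2, hB3, hB4, hB5, hB6⟩ := respond hb ha hdis hne hfix hDA hDB hst.nB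
      (fun x hx => hg x (hsub hx)) z'
    have hst' : St (K ∪ S) z' A' B' := by
      refine ⟨hfixA, ?_, ?_, hne, hB2⟩
      · intro y hy y' hy' e he
        rcases mem_union.1 he with h | h
        · exact hst.fB y (hB1 hy) y' (hB1 hy') e h
        · exact hB3 y hy y' hy' e h
      · intro x hx y hy e he
        rcases mem_union.1 he with h | h
        · rw [hz' e h]
          exact hst.val x (hsub hx) y (hB1 hy) e h
        · exact hB4 x hx y hy e h
    refine ⟨B', hB1, hst', hB5, ?_, ?_⟩
    · rintro rfl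
      have h1 := hS0 rfl
      subst h1
      simp only [card_empty, zero_add, mul_zero, add_zero] at hB6
      refine ⟨by simpa using hB6, ?_⟩
      refine hp.le 2 ?_
      calc A'.card * B.card ≤ A'.card * (2 ^ 2 * B'.card) := Nat.mul_le_mul_left _ hB6
        _ = _ := by ring
    · intro hne'
      have hs : 1 ≤ S.card := (nonempty_iff_ne_empty.2 hne').card_pos
      unfold Pot at hp ⊢
      rw [hcu]
      obtain ⟨a', rfl⟩ : ∃ a', a = a' + 3 := ⟨a - 3, by omega⟩
      simp only [Nat.add_sub_cancel] at hp ⊢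
      calc 2 ^ (8 * (a' + 3) * Fintype.card E) * 2 ^ (a' * (K.card + S.card))
          = (2 ^ (8 * (a' + 3) * Fintype.card E) * 2 ^ (a' * K.card)) * 2 ^ (a' * S.card) := by
            rw [mul_add a', pow_add]; ring
        _ ≤ (2 ^ (p + 8 * (a' + 3) * K.card) * (A.card * B.card)) * 2 ^ (a' * S.card) :=
            Nat.mul_le_mul_right _ hp
        _ ≤ (2 ^ (p + 8 * (a' + 3) * K.card) * ((2 ^ (3 * (a' + 3) * S.card) * A'.card) *
              (2 ^ (S.card + 2 + 4 * (a' + 3) * S.card) * B'.card))) * 2 ^ (a' * S.card) :=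
            Nat.mul_le_mul_right _ (Nat.mul_le_mul_left _ (Nat.mul_le_mul hcard hB6))
        _ = 2 ^ (p + 8 * (a' + 3) * K.card + 3 * (a' + 3) * S.card +
              (S.card + 2 + 4 * (a' + 3) * S.card) + a' * S.card) * (A'.card * B'.card) := by
            rw [pow_add _ _ (a' * S.card), pow_add _ _ (S.card + 2 + 4 * (a' + 3) * S.card),
              pow_add _ _ (3 * (a' + 3) * S.card)]
            ring
        _ ≤ _ := by
            refine Nat.mul_le_mul_right _ (Nat.pow_le_pow_right (by norm_num) ?_)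
            nlinarith

end Pool.Agent.W967.RC
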