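import Pool.Agent.W967.RC.Graph

set_option autoImplicit false
set_option linter.unusedSectionVars false

/-! Refutations with comparisons. -/

namespace Pool.Agent.W967.RC

open Finset

variable {k n : ℕ}

/-- ask a list of comparisons -/
theorem ask_list (A : Finset (Fin k)) (d : ℕ) :
    ∀ (l : List (((Fin k → Fin n) → ℝ) × ((Fin k → Fin n) → ℝ))),
      (∀ p ∈ l, Dep A p.1 ∧ Dep Aᶜ p.2) → ∀ F : List Prop → Tree k n,
      (∀ bs, (F bs).Split A ∧ (F bs).depth ≤ d) →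
      ∃ T : Tree k n, T.Split A ∧ T.depth ≤ l.length + d ∧
        ∀ c, T.run c = (F (l.map fun p => p.1 c ≤ p.2 c)).run c := by
  classical
  intro l
  induction l with
  | nil =>
    intro _ F hF
    exact ⟨F [], (hF []).1, by simpa using (hF []).2, fun c => rfl⟩
  | cons p l ih =>
    intro hl F hF
    obtain ⟨T, hT1, hT2, hT3⟩ := ih (fun q hq => hl q (List.mem_cons_of_mem _ hq))
      (fun bs => F (True :: bs)) (fun bs => hF _)
    obtain ⟨U, hU1, hU2, hU3⟩ := ih (fun q hq => hl q (List.mem_cons_of_mem _ hq))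
      (fun bs => F (False :: bs)) (fun bs => hF _)
    refine ⟨.cmp p.1 p.2 T U, ⟨(hl p List.mem_cons_self).1, (hl p List.mem_cons_self).2, hT1, hU1⟩,
      ?_, ?_⟩
    · simp only [Tree.depth, List.length_cons]
      omega
    · intro c
      rw [Tree.run, List.map_cons]
      split_ifs with h
      · rw [hT3 c, eq_true h]
      · rw [hU3 c, eq_false h]

/-- ask a predicate -/
theorem ask {A : Finset (Fin k)} {r d : ℕ} {P : (Fin k → Fin n) → Prop} (hP : Cmp A r P)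
    (T U : Tree k n) (hT : T.Split A) (hU : U.Split A) (hTd : T.depth ≤ d) (hUd : U.depth ≤ d) :
    ∃ V : Tree k n, V.Split A ∧ V.depth ≤ r + d ∧
      ∀ c, (P c → V.run c = T.run c) ∧ (¬ P c → V.run c = U.run c) := by
  classical
  obtain ⟨f, g, hfg, hdet⟩ := hP
  let l := List.ofFn fun i => (f i, g i)
  obtain ⟨V, hV1, hV2, hV3⟩ := ask_list A d l (by
    intro p hp
    simp only [l, List.mem_ofFn] at hp
    obtain ⟨i, rfl⟩ := hp
    exact hfg i) (fun bs => if ∃ c', l.map (fun p => p.1 c' ≤ p.2 c') = bs ∧ P c' then T else U) (by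
    intro bs
    split_ifs
    · exact ⟨hT, hTd⟩
    · exact ⟨hU, hUd⟩)
  refine ⟨V, hV1, by simpa [l] using hV2, fun c => ⟨fun h => ?_, fun h => ?_⟩⟩
  · rw [hV3 c]
    rw [if_pos ⟨c, rfl, h⟩]
  · rw [hV3 c]
    rw [if_neg]
    rintro ⟨c', hc', hP'⟩
    apply h
    refine hdet c' c (fun i => ?_) hP'
    simp only [l, List.map_ofFn] at hc'
    have := congrFun (List.ofFn_injective hc') i
    simp only [Function.comp] at this
    exact iff_of_eq this

theorem Seq.search {G : SimpleGraph (Fin n)} {A : Finset (Fin k)} {r L : ℕ}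
    {P : ℕ → (Fin k → Fin n) → Prop} (h : Seq G A r L P) (i₀ j₀ : Fin k) (m : ℕ) :
    ∀ lo hi : ℕ, lo ≤ hi → hi ≤ L → hi - lo ≤ 2 ^ m → ∃ T : Tree k n, T.Split A ∧
      T.depth ≤ r * m ∧ ∀ c, P lo c → ¬ P hi c → (T.run c).1 ≠ (T.run c).2 ∧
        ¬ G.Adj (c (T.run c).1) (c (T.run c).2) := by
  classical
  induction m with
  | zero =>
    intro lo hi h1 h2 h3
    rcases Nat.eq_or_lt_of_le h1 with rfl | h4
    · exact ⟨.out i₀ j₀, trivial, by simp [Tree.depth], fun c h5 h6 => absurd h5 h6⟩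
    · have h5 : hi = lo + 1 := by simp at h3; omega
      subst h5
      obtain ⟨i, j, hij, hs⟩ := h.step lo (by omega)
      exact ⟨.out i j, trivial, by simp [Tree.depth], fun c h6 h7 => ⟨hij, fun h8 =>
        h7 (hs c h6 h8)⟩⟩
  | succ m ih =>
    intro lo hi h1 h2 h3
    have h4 : 2 ^ (m + 1) = 2 * 2 ^ m := by rw [pow_succ]; ring
    obtain ⟨T, hT1, hT2, hT3⟩ := ih (lo + (hi - lo) / 2) hi (by omega) h2 (by omega)
    obtain ⟨U, hU1, hU2, hU3⟩ := ih lo (lo + (hi - lo) / 2) (by omega) (by omega) (by omega)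
    obtain ⟨V, hV1, hV2, hV3⟩ := ask (h.cmp (lo + (hi - lo) / 2)) T U hT1 hU1 hT2 hU2
    refine ⟨V, hV1, by rw [mul_add, mul_one]; omega, fun c h5 h6 => ?_⟩
    by_cases h7 : P (lo + (hi - lo) / 2) c
    · rw [(hV3 c).1 h7]
      exact hT3 c h7 h6
    · rw [(hV3 c).2 h7]
      exact hU3 c h5 h7

theorem Der.cmp {G : SimpleGraph (Fin n)} {A : Finset (Fin k)} {r : ℕ}
    {H : Set ((Fin k → Fin n) → Prop)} {P : (Fin k → Fin n) → Prop} {w : ℕ}
    (h : Der G A r H P w) : Cmp A r P := by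
  cases h <;> assumption

theorem Der.mono {G : SimpleGraph (Fin n)} {A : Finset (Fin k)} {r : ℕ}
    {H H' : Set ((Fin k → Fin n) → Prop)} {P : (Fin k → Fin n) → Prop} {w : ℕ}
    (h : Der G A r H P w) (hH : H ⊆ H') : Der G A r H' P w := by
  induction h with
  | hyp P hP hc => exact .hyp _ _ (hH hP) hc
  | ax P i j hij hP hc => exact .ax _ _ i j hij hP hc
  | inf P Q R a b _ _ h3 hc ih1 ih2 => exact .inf _ _ _ _ _ _ ih1 ih2 h3 hc

theorem Der.zero {G : SimpleGraph (Fin n)} {A : Finset (Fin k)} {r : ℕ}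
    {H : Set ((Fin k → Fin n) → Prop)} {P : (Fin k → Fin n) → Prop} {w : ℕ}
    (h : Der G A r H P w) (hw : w = 0) (c : Fin k → Fin n) (hc : ∀ Q ∈ H, Q c) : P c := by
  induction h with
  | hyp P hP _ => exact hc P hP
  | ax => omega
  | inf P Q R a b _ _ h3 _ ih1 ih2 => exact h3 c (ih1 (by omega)) (ih2 (by omega))

theorem Der.one {G : SimpleGraph (Fin n)} {A : Finset (Fin k)} {r : ℕ}
    {H : Set ((Fin k → Fin n) → Prop)} {P : (Fin k → Fin n) → Prop} {w : ℕ}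
    (h : Der G A r H P w) (hw : w = 1) :
    ∃ i j : Fin k, i ≠ j ∧ ∀ c, (∀ Q ∈ H, Q c) → G.Adj (c i) (c j) → P c := by
  induction h with
  | hyp => omega
  | ax P i j hij hP _ => exact ⟨i, j, hij, fun c _ h => hP c h⟩
  | inf P Q R a b h1 h2 h3 _ ih1 ih2 =>
    rcases Nat.eq_zero_or_pos a with ha | ha
    · obtain ⟨i, j, hij, h⟩ := ih2 (by omega)
      exact ⟨i, j, hij, fun c hc hadj => h3 c (h1.zero ha c hc) (h c hc hadj)⟩
    · obtain ⟨i, j, hij, h⟩ := ih1 (by omega)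
      exact ⟨i, j, hij, fun c hc hadj => h3 c (h c hc hadj) (h2.zero (by omega) c hc)⟩

/-- cut a derivation into two smaller ones -/
theorem Der.split {G : SimpleGraph (Fin n)} {A : Finset (Fin k)} {r τ : ℕ} (hτ : 1 ≤ τ)
    {H : Set ((Fin k → Fin n) → Prop)} {P : (Fin k → Fin n) → Prop} {w : ℕ}
    (h : Der G A r H P w) (hw : τ < w) :
    ∃ (Q : (Fin k → Fin n) → Prop) (a b : ℕ), Der G A r H Q a ∧ Der G A r (insert Q H) P b ∧
      a + b = w ∧ τ < 2 * a ∧ a ≤ τ := by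
  induction h with
  | hyp => omega
  | ax => omega
  | inf P₁ P₂ R a₁ a₂ h1 h2 h3 hc ih1 ih2 =>
    by_cases ha1 : τ < a₁
    · obtain ⟨Q, a, b, g1, g2, g3, g4, g5⟩ := ih1 ha1
      exact ⟨Q, a, b + a₂, g1, .inf _ _ _ _ _ _ g2 (h2.mono (Set.subset_insert _ _)) h3 hc,
        by omega, g4, g5⟩
    · by_cases ha2 : τ < a₂
      · obtain ⟨Q, a, b, g1, g2, g3, g4, g5⟩ := ih2 ha2
        exact ⟨Q, a, a₁ + b, g1, .inf _ _ _ _ _ _ (h1.mono (Set.subset_insert _ _)) g2 h3 hc,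
          by omega, g4, g5⟩
      · rcases le_total a₂ a₁ with h | h
        · exact ⟨P₁, a₁, 0 + a₂, h1, .inf _ _ _ _ _ _ (.hyp _ _ (Set.mem_insert _ _) h1.cmp)
            (h2.mono (Set.subset_insert _ _)) h3 hc, by omega, by omega, by omega⟩
        · exact ⟨P₂, a₂, a₁ + 0, h2, .inf _ _ _ _ _ _ (h1.mono (Set.subset_insert _ _))
            (.hyp _ _ (Set.mem_insert _ _) h2.cmp) h3 hc, by omega, by omega, by omega⟩

theorem Der.search {G : SimpleGraph (Fin n)} {A : Finset (Fin k)} {r : ℕ} (i₀ j₀ : Fin k)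
    (m : ℕ) : ∀ (H : Set ((Fin k → Fin n) → Prop)) (P : (Fin k → Fin n) → Prop) (w : ℕ),
      Der G A r H P w → w * 2 ^ m ≤ 3 ^ m → ∃ T : Tree k n, T.Split A ∧ T.depth ≤ r * m ∧
        ∀ c, (∀ Q ∈ H, Q c) → ¬ P c → (T.run c).1 ≠ (T.run c).2 ∧
          ¬ G.Adj (c (T.run c).1) (c (T.run c).2) := by
  classical
  induction m with
  | zero =>
    intro H P w h hw
    rw [pow_zero, pow_zero, mul_one] at hw
    rcases Nat.eq_or_lt_of_le hw with h1 | h1
    · obtain ⟨i, j, hij, h2⟩ := h.one h1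
      exact ⟨.out i j, trivial, by simp [Tree.depth], fun c hc hP => ⟨hij, fun h3 =>
        hP (h2 c hc h3)⟩⟩
    · exact ⟨.out i₀ j₀, trivial, by simp [Tree.depth], fun c hc hP =>
        absurd (h.zero (by omega) c hc) hP⟩
  | succ m ih =>
    intro H P w h hw
    by_cases hw1 : w ≤ 1
    · obtain ⟨T, hT1, hT2, hT3⟩ := ih H P w h (by
        calc w * 2 ^ m ≤ 1 * 2 ^ m := Nat.mul_le_mul_right _ hw1
          _ ≤ 3 ^ m := by rw [one_mul]; exact Nat.pow_le_pow_left (by norm_num) m)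
      exact ⟨T, hT1, by rw [mul_add]; omega, hT3⟩
    rw [not_le] at hw1
    obtain ⟨Q, a, b, g1, g2, g3, g4, g5⟩ := h.split (τ := 2 * w / 3) (by omega) (by omega)
    have h2 : w * 2 ^ (m + 1) = 2 * (w * 2 ^ m) := by rw [pow_succ]; ring
    have h3 : 3 ^ (m + 1) = 3 * 3 ^ m := by rw [pow_succ]; ring
    have ha : a * 2 ^ m ≤ 3 ^ m := by
      have : 3 * a ≤ 2 * w := by omega
      have h4 : 3 * a * 2 ^ m ≤ 2 * w * 2 ^ m := Nat.mul_le_mul_right _ this
      nlinarith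
    have hb : b * 2 ^ m ≤ 3 ^ m := by
      have : 3 * b ≤ 2 * w := by omega
      have h4 : 3 * b * 2 ^ m ≤ 2 * w * 2 ^ m := Nat.mul_le_mul_right _ this
      nlinarith
    obtain ⟨T, hT1, hT2, hT3⟩ := ih _ P b g2 hb
    obtain ⟨U, hU1, hU2, hU3⟩ := ih _ Q a g1 ha
    obtain ⟨V, hV1, hV2, hV3⟩ := ask g1.cmp T U hT1 hU1 hT2 hU2
    refine ⟨V, hV1, by rw [mul_add, mul_one]; omega, fun c hc hP => ?_⟩
    by_cases h7 : Q c
    · rw [(hV3 c).1 h7]
      refine hT3 c (fun R hR => ?_) hP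
      rcases hR with rfl | hR
      · exact h7
      · exact hc R hR
    · rw [(hV3 c).2 h7]
      exact hU3 c hc h7

end Pool.Agent.W967.RC
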