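import Pool.Agent.W967.RC.Lift

set_option autoImplicit false
set_option linter.unusedSectionVars false

/-! Parity constraints on the complete graph with `t` vertices: the adversary. -/

namespace Pool.Agent.W967.RC

open Finset

variable {t : ℕ}

/-- sum of the values at the edges at `v` -/
def star (z : Sym2 (Fin t) → ZMod 2) (v : Fin t) : ZMod 2 := ∑ u ∈ univ.erase v, z s(v, u)

/-- the charge of a vertex -/
def chg (v₀ v : Fin t) : ZMod 2 := if v = v₀ then 1 else 0

theorem sum_star (z : Sym2 (Fin t) → ZMod 2) : ∑ v, star z v = 0 := by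
  unfold star
  rw [sum_sigma']
  refine sum_involution (fun p _ => ⟨p.2, p.1⟩) ?_ ?_ ?_ ?_
  · rintro ⟨v, u⟩ _
    show z s(v, u) + z s(u, v) = 0
    rw [Sym2.eq_swap]
    exact CharTwo.add_self_eq_zero _
  · rintro ⟨v, u⟩ h _ h2
    simp only [mem_sigma, mem_univ, true_and, mem_erase] at h
    simp only [Sigma.mk.injEq] at h2
    exact h.1 h2.1
  · rintro ⟨v, u⟩ h
    simp only [mem_sigma, mem_univ, true_and, mem_erase, and_true] at h ⊢
    exact h.symm
  · rintro ⟨v, u⟩ _
    rfl

theorem star_add (z z' : Sym2 (Fin t) → ZMod 2) (v : Fin t) :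
    star (z + z') v = star z v + star z' v := by
  simp [star, sum_add_distrib]

theorem star_single {p q : Fin t} (h : p ≠ q) (v : Fin t) :
    star (Pi.single s(p, q) 1) v = if v = p ∨ v = q then 1 else 0 := by
  unfold star
  simp only [Pi.single_apply]
  by_cases h1 : v = p
  · subst h1
    rw [if_pos (Or.inl rfl)]
    rw [sum_eq_single q]
    · rw [if_pos rfl]
    · intro x _ hx
      rw [if_neg]
      rw [Sym2.congr_right]
      exact hx
    · intro hq
      exact absurd (mem_erase.2 ⟨h.symm, mem_univ _⟩) hq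
  · by_cases h2 : v = q
    · subst h2
      rw [if_pos (Or.inr rfl)]
      rw [sum_eq_single p]
      · rw [if_pos Sym2.eq_swap]
      · intro x _ hx
        rw [if_neg]
        intro h3
        rw [Sym2.eq_iff] at h3
        rcases h3 with ⟨h3, _⟩ | ⟨_, h3⟩
        · exact h1 h3
        · exact hx h3
      · intro hq
        exact absurd (mem_erase.2 ⟨h, mem_univ _⟩) hq
    · rw [if_neg (by tauto)]
      refine sum_eq_zero fun x _ => ?_
      rw [if_neg]
      intro h3
      rw [Sym2.eq_iff] at h3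
      rcases h3 with ⟨h3, _⟩ | ⟨h3, _⟩
      · exact h1 h3
      · exact h2 h3

/-- the number of edges of `K` at `u` -/
def dk (K : Finset (Sym2 (Fin t))) (u : Fin t) : ℕ := (univ.filter fun v => s(u, v) ∈ K).card

/-- vertices with few edges in `K` -/
def W (K : Finset (Sym2 (Fin t))) : Finset (Fin t) := univ.filter fun u => 2 * dk K u + 2 < t

theorem W_anti {K K' : Finset (Sym2 (Fin t))} (h : K ⊆ K') : W K' ⊆ W K := by
  intro u hu
  simp only [W, mem_filter, mem_univ, true_and] at hu ⊢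
  have : dk K u ≤ dk K' u := by
    refine card_le_card fun v hv => ?_
    rw [mem_filter] at hv ⊢
    exact ⟨hv.1, h hv.2⟩
  omega

theorem sum_dk (K : Finset (Sym2 (Fin t))) : ∑ u, dk K u ≤ 2 * K.card := by
  classical
  let P : Finset (Fin t × Fin t) := univ.filter fun p => s(p.1, p.2) ∈ K
  have h1 : ∑ u, dk K u = P.card := by
    unfold dk
    rw [← card_sigma]
    refine card_bij (fun p _ => (p.1, p.2)) ?_ ?_ ?_
    · rintro ⟨u, v⟩ h
      simpa [P] using h
    · rintro ⟨u, v⟩ _ ⟨u', v'⟩ _ h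
      simp only [Prod.mk.injEq] at h
      obtain ⟨rfl, rfl⟩ := h
      rfl
    · rintro ⟨u, v⟩ h
      exact ⟨⟨u, v⟩, by simpa [P] using h, rfl⟩
  have h2 : P.card = ∑ e ∈ K, (P.filter fun p => s(p.1, p.2) = e).card := by
    refine card_eq_sum_card_fiberwise fun p hp => ?_
    simpa [P] using hp
  rw [h1, h2]
  have h3 : ∀ e ∈ K, (P.filter fun p => s(p.1, p.2) = e).card ≤ 2 := by
    intro e _
    induction e using Sym2.ind with
    | _ a c =>
      refine (card_le_card (t := {(a, c), (c, a)}) ?_).trans card_le_two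
      rintro ⟨u, v⟩ h
      rw [mem_filter] at h
      have := h.2
      rw [Sym2.eq_iff] at this
      rw [mem_insert, mem_singleton, Prod.mk.injEq, Prod.mk.injEq]
      exact this
  refine (sum_le_card_nsmul _ _ _ h3).trans ?_
  rw [smul_eq_mul, mul_comm]

theorem two_le_W {w : ℕ} (hw : 4 * w < (t - 1) * (t - 2)) (K : Finset (Sym2 (Fin t)))
    (hK : K.card ≤ w) : 2 ≤ (W K).card := by
  classical
  by_contra hcon
  have ht : 2 < t := by
    by_contra h
    have : t - 2 = 0 := by omega
    rw [this, mul_zero] at hw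
    omega
  have h1 : (W K).card + (univ.filter fun u => ¬ (2 * dk K u + 2 < t)).card = t := by
    rw [W, card_filter_add_card_filter_not, card_univ, Fintype.card_fin]
  have h2 : (univ.filter fun u => ¬ (2 * dk K u + 2 < t)).card * (t - 2) ≤ 2 * ∑ u, dk K u := by
    rw [mul_sum]
    refine le_trans ?_ (sum_le_sum_of_subset (filter_subset (fun u => ¬ (2 * dk K u + 2 < t)) _))
    rw [← smul_eq_mul]
    refine card_nsmul_le_sum _ _ _ fun u hu => ?_
    rw [mem_filter] at hu
    omega
  have h3 := sum_dk K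
  have h4 : t - 1 ≤ (univ.filter fun u => ¬ (2 * dk K u + 2 < t)).card := by omega
  have h5 : (t - 1) * (t - 2) ≤ (univ.filter fun u => ¬ (2 * dk K u + 2 < t)).card * (t - 2) :=
    Nat.mul_le_mul_right _ h4
  omega

/-- the adversary: every vertex with few fixed edges may be the only violated one -/
def Adv (v₀ : Fin t) (K : Finset (Sym2 (Fin t))) (z : Sym2 (Fin t) → ZMod 2) : Prop :=
  ∀ u ∈ W K, ∃ z', (∀ e ∈ K, z' e = z e) ∧ ∀ v, v ≠ u → star z' v = chg v₀ v

theorem adv_zero (v₀ : Fin t) : Adv v₀ ∅ 0 := by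
  intro u _
  by_cases h : u = v₀
  · subst h
    refine ⟨0, fun e he => by simp at he, fun v hv => ?_⟩
    simp [star, chg, hv]
  · refine ⟨Pi.single s(u, v₀) 1, fun e he => by simp at he, fun v hv => ?_⟩
    rw [star_single h, chg]
    by_cases h2 : v = v₀ <;> simp [h2, hv]

theorem adv_ext {w : ℕ} (hw : 4 * w < (t - 1) * (t - 2)) (v₀ : Fin t)
    (K : Finset (Sym2 (Fin t))) (z : Sym2 (Fin t) → ZMod 2) (S : Finset (Sym2 (Fin t)))
    (h : Adv v₀ K z) (hc : (K ∪ S).card ≤ w) :
    ∃ z', (∀ e ∈ K, z' e = z e) ∧ Adv v₀ (K ∪ S) z' := by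
  classical
  have h2 := two_le_W hw (K ∪ S) hc
  obtain ⟨u₀, hu₀⟩ : (W (K ∪ S)).Nonempty := by
    rw [← card_pos]; omega
  obtain ⟨z', hz', hs⟩ := h u₀ (W_anti subset_union_left hu₀)
  refine ⟨z', hz', ?_⟩
  intro u hu
  by_cases huu : u = u₀
  · subst huu
    exact ⟨z', fun _ _ => rfl, hs⟩
  -- a common neighbour
  simp only [W, mem_filter, mem_univ, true_and] at hu hu₀
  obtain ⟨x, hx⟩ : ∃ x : Fin t, x ∉ (univ.filter fun v => s(u₀, v) ∈ K ∪ S) ∪
      (univ.filter fun v => s(u, v) ∈ K ∪ S) ∪ {u₀, u} := by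
    by_contra hcon
    push Not at hcon
    have h3 : (univ : Finset (Fin t)) ⊆ (univ.filter fun v => s(u₀, v) ∈ K ∪ S) ∪
      (univ.filter fun v => s(u, v) ∈ K ∪ S) ∪ {u₀, u} := fun x _ => hcon x
    have h4 := card_le_card h3
    rw [card_univ, Fintype.card_fin] at h4
    have h5 := card_union_le ((univ.filter fun v => s(u₀, v) ∈ K ∪ S) ∪
      (univ.filter fun v => s(u, v) ∈ K ∪ S)) {u₀, u}
    have h6 := card_union_le (univ.filter fun v => s(u₀, v) ∈ K ∪ S)
      (univ.filter fun v => s(u, v) ∈ K ∪ S)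
    have h7 : ({u₀, u} : Finset (Fin t)).card ≤ 2 := card_le_two
    unfold dk at hu hu₀
    omega
  simp only [mem_union, mem_filter, mem_univ, true_and, mem_insert, mem_singleton, not_or] at hx
  obtain ⟨⟨hx1, hx2⟩, hx3, hx4⟩ := hx
  have hviol : star z' u₀ = chg v₀ u₀ + 1 := by
    have h3 := sum_star z'
    have h4 : ∑ v, chg v₀ v = 1 := by simp [chg]
    have h5 : ∑ v ∈ univ.erase u₀, star z' v = ∑ v ∈ univ.erase u₀, chg v₀ v :=
      sum_congr rfl fun v hv => hs v (ne_of_mem_erase hv)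
    rw [← add_sum_erase _ _ (mem_univ u₀)] at h3 h4
    rw [h5] at h3
    generalize (∑ v ∈ univ.erase u₀, chg v₀ v) = r at h3 h4
    generalize star z' u₀ = s at h3 ⊢
    generalize chg v₀ u₀ = q at h4 ⊢
    revert r s q
    decide
  refine ⟨z' + Pi.single s(u₀, x) 1 + Pi.single s(u, x) 1, ?_, ?_⟩
  · intro e he
    have h3 : e ≠ s(u₀, x) := by
      rintro rfl
      exact not_or.2 hx1 (mem_union.1 he)
    have h4 : e ≠ s(u, x) := by
      rintro rfl
      exact not_or.2 hx2 (mem_union.1 he)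
    simp [Pi.single_eq_of_ne h3, Pi.single_eq_of_ne h4]
  · intro v hv
    rw [star_add, star_add, star_single (Ne.symm hx3), star_single (Ne.symm hx4)]
    by_cases h3 : v = u₀
    · subst h3
      have h4 : ¬ (v = u ∨ v = x) := by
        rintro (h | h)
        · exact hv h
        · exact hx3 h.symm
      rw [if_pos (Or.inl rfl), if_neg h4, hviol, add_zero, add_assoc]
      have : (1 : ZMod 2) + 1 = 0 := by decide
      rw [this, add_zero]
    · by_cases h4 : v = x
      · subst h4
        rw [if_pos (Or.inr rfl), if_pos (Or.inr rfl), hs v h3, add_assoc]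
        have : (1 : ZMod 2) + 1 = 0 := by decide
        rw [this, add_zero]
      · rw [if_neg (by tauto), if_neg (by tauto), hs v h3]
        simp

theorem adv_out {w : ℕ} (hw : 4 * w < (t - 1) * (t - 2)) (v₀ : Fin t)
    (K : Finset (Sym2 (Fin t))) (z : Sym2 (Fin t) → ZMod 2) (l : Fin t)
    (h : Adv v₀ K z) (hc : K.card ≤ w) :
    ∃ z', (∀ e ∈ K, z' e = z e) ∧ ¬ (star z' l ≠ chg v₀ l) := by
  classical
  have h2 := two_le_W hw K hc
  obtain ⟨u, hu, hne⟩ : ∃ u ∈ W K, u ≠ l := by
    by_contra hcon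
    push Not at hcon
    have : W K ⊆ {l} := fun u hu => mem_singleton.2 (hcon u hu)
    have := card_le_card this
    rw [card_singleton] at this
    omega
  obtain ⟨z', hz', hs⟩ := h u hu
  exact ⟨z', hz', not_not.2 (hs l hne.symm)⟩

theorem card_sym2_le (t : ℕ) : Fintype.card (Sym2 (Fin t)) ≤ t ^ 2 := by
  have : Function.Surjective (fun p : Fin t × Fin t => s(p.1, p.2)) := by
    intro e
    induction e using Sym2.ind with
    | _ a c => exact ⟨(a, c), rfl⟩
  have := Fintype.card_le_of_surjective _ this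
  simpa [sq] using this

/-- Every protocol that finds a violated vertex of the lifted parity constraints is deep. -/
theorem tse_lower {a w : ℕ} (ha : 2 * t ^ 2 + 5 ≤ a) (hw : 4 * w < (t - 1) * (t - 2))
    (v₀ : Fin t) (P : Prot (Sym2 (Fin t)) (4 * a) (Fin t))
    (hP : ∀ x y, star (ip x y) (P.run x y) ≠ chg v₀ (P.run x y)) :
    (a - 3) * w < 7 * P.depth := by
  by_contra hcon
  rw [not_lt] at hcon
  have h1 := card_sym2_le t
  obtain ⟨x, y, h⟩ := lifting (E := Sym2 (Fin t)) (b := 4 * a) (w := w) rfl (by omega) (Adv v₀) 0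
    (adv_zero v₀) (fun K z S h hc => adv_ext hw v₀ K z S h hc)
    (fun l z => star z l ≠ chg v₀ l) (fun K z l h hc => adv_out hw v₀ K z l h hc) P hcon
  exact h (hP x y)

end Pool.Agent.W967.RC
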